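import Mathlib

set_option autoImplicit false
set_option linter.unusedSectionVars false

namespace Pool.Agent.H140.LL

open Finset

/-- Number of pairs of maps carrying the relation `E` into the relation `F`. -/
noncomputable def homCount {α β γ δ : Type*} (E : α → β → Prop) (F : γ → δ → Prop) : ℕ :=
  Nat.card {p : (α → γ) × (β → δ) // ∀ x y, E x y → F (p.1 x) (p.2 y)}

section
variable {α β : Type*} [Finite α] [Finite β]

/-- image of the edge set -/
def imE {γ δ : Type*} (E : α → β → Prop) (f : α → γ) (g : β → δ) : Set (γ × δ) :=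
  {q | ∃ x y, E x y ∧ f x = q.1 ∧ g y = q.2}

noncomputable def val {γ δ : Type*} (E : α → β → Prop) (f : α → γ) (g : β → δ) : ℤ :=
  2 * (((Set.range f).ncard : ℤ) + ((Set.range g).ncard : ℤ)) - ((imE E f g).ncard : ℤ)

theorem imE_finite {γ δ : Type*} (E : α → β → Prop) (f : α → γ) (g : β → δ) :
    (imE E f g).Finite := by
  apply Set.Finite.subset (Set.finite_range (fun p : α × β => (f p.1, g p.2)))
  rintro q ⟨x, y, -, h1, h2⟩
  exact ⟨(x, y), Prod.ext h1 h2⟩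

theorem val_comp {γ δ γ' δ' : Type*} (E : α → β → Prop) (f : α → γ) (g : β → δ)
    (u : γ → γ') (v : δ → δ') (hu : Set.InjOn u (Set.range f)) (hv : Set.InjOn v (Set.range g)) :
    val E (u ∘ f) (v ∘ g) = val E f g := by
  have h1 : (Set.range (u ∘ f)).ncard = (Set.range f).ncard := by
    rw [Set.range_comp, Set.InjOn.ncard_image hu]
  have h2 : (Set.range (v ∘ g)).ncard = (Set.range g).ncard := by
    rw [Set.range_comp, Set.InjOn.ncard_image hv]
  have h3 : (imE E (u ∘ f) (v ∘ g)).ncard = (imE E f g).ncard := by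
    have : imE E (u ∘ f) (v ∘ g) = (fun q : γ × δ => (u q.1, v q.2)) '' (imE E f g) := by
      ext q
      constructor
      · rintro ⟨x, y, h, hx, hy⟩
        exact ⟨(f x, g y), ⟨x, y, h, rfl, rfl⟩, Prod.ext hx hy⟩
      · rintro ⟨q', ⟨x, y, h, hx, hy⟩, rfl⟩
        exact ⟨x, y, h, by simp [hx], by simp [hy]⟩
    rw [this]
    apply Set.InjOn.ncard_image
    rintro a ⟨x, y, -, hx, hy⟩ b ⟨x', y', -, hx', hy'⟩ h
    have h1 := congrArg Prod.fst h
    have h2 := congrArg Prod.snd h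
    simp only at h1 h2
    exact Prod.ext (hu ⟨x, hx⟩ ⟨x', hx'⟩ h1) (hv ⟨y, hy⟩ ⟨y', hy'⟩ h2)
  unfold val
  rw [h1, h2, h3]

/-- The optimal exponent: maximum of `2 |V(H')| - |E(H')|` over the images of `E`. -/
noncomputable def opt (E : α → β → Prop) : ℤ :=
  sSup {z : ℤ | ∃ (f : α → ℕ) (g : β → ℕ), z = val E f g}

theorem range_ncard_le {γ : Type*} (f : α → γ) : (Set.range f).ncard ≤ Nat.card α := by
  rw [← Set.image_univ, ← Set.ncard_univ]
  exact Set.ncard_image_le Set.finite_univ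

theorem val_le_card {γ δ : Type*} (E : α → β → Prop) (f : α → γ) (g : β → δ) :
    val E f g ≤ 2 * ((Nat.card α : ℤ) + (Nat.card β : ℤ)) := by
  unfold val
  have h1' : ((Set.range f).ncard : ℤ) ≤ (Nat.card α : ℤ) := by exact_mod_cast range_ncard_le f
  have h2' : ((Set.range g).ncard : ℤ) ≤ (Nat.card β : ℤ) := by exact_mod_cast range_ncard_le g
  have h3 : (0 : ℤ) ≤ ((imE E f g).ncard : ℤ) := by positivity
  linarith

theorem opt_bdd (E : α → β → Prop) :
    BddAbove {z : ℤ | ∃ (f : α → ℕ) (g : β → ℕ), z = val E f g} := by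
  refine ⟨2 * ((Nat.card α : ℤ) + (Nat.card β : ℤ)), ?_⟩
  rintro z ⟨f, g, rfl⟩
  exact val_le_card E f g

theorem val_le_opt {γ δ : Type*} (E : α → β → Prop) (f : α → γ) (g : β → δ) :
    val E f g ≤ opt E := by
  obtain ⟨u, hu⟩ : ∃ u : γ → ℕ, Set.InjOn u (Set.range f) :=
    Set.countable_iff_exists_injOn.mp (Set.finite_range f).countable
  obtain ⟨v, hv⟩ : ∃ v : δ → ℕ, Set.InjOn v (Set.range g) :=
    Set.countable_iff_exists_injOn.mp (Set.finite_range g).countable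
  rw [← val_comp E f g u v hu hv]
  exact le_csSup (opt_bdd E) ⟨_, _, rfl⟩

theorem exists_opt (E : α → β → Prop) : ∃ (f : α → ℕ) (g : β → ℕ), opt E = val E f g :=
  Int.csSup_mem (s := {z : ℤ | ∃ (f : α → ℕ) (g : β → ℕ), z = val E f g})
    ⟨_, fun _ => 0, fun _ => 0, rfl⟩ (opt_bdd E)

/-- superadditivity of `opt` over a splitting with no edges across -/
theorem opt_split (E : α → β → Prop) (A : Finset α) (B : Finset β)
    (h : ∀ x y, E x y → (x ∈ A ↔ y ∈ B)) :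
    opt (fun (x : {x // x ∈ A}) (y : {y // y ∈ B}) => E x.1 y.1) +
      opt (fun (x : {x // x ∉ A}) (y : {y // y ∉ B}) => E x.1 y.1) ≤ opt E := by
  classical
  obtain ⟨f1, g1, h1⟩ := exists_opt (fun (x : {x // x ∈ A}) (y : {y // y ∈ B}) => E x.1 y.1)
  obtain ⟨f2, g2, h2⟩ := exists_opt (fun (x : {x // x ∉ A}) (y : {y // y ∉ B}) => E x.1 y.1)
  let f : α → ℕ ⊕ ℕ := fun x => if hx : x ∈ A then Sum.inl (f1 ⟨x, hx⟩) else Sum.inr (f2 ⟨x, hx⟩)
  let g : β → ℕ ⊕ ℕ := fun y => if hy : y ∈ B then Sum.inl (g1 ⟨y, hy⟩) else Sum.inr (g2 ⟨y, hy⟩)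
  have hf1 : ∀ x (hx : x ∈ A), f x = Sum.inl (f1 ⟨x, hx⟩) := fun x hx => by simp only [f, dif_pos hx]
  have hf2 : ∀ x (hx : x ∉ A), f x = Sum.inr (f2 ⟨x, hx⟩) := fun x hx => by simp only [f, dif_neg hx]
  have hg1 : ∀ x (hx : x ∈ B), g x = Sum.inl (g1 ⟨x, hx⟩) := fun x hx => by simp only [g, dif_pos hx]
  have hg2 : ∀ x (hx : x ∉ B), g x = Sum.inr (g2 ⟨x, hx⟩) := fun x hx => by simp only [g, dif_neg hx]
  refine le_trans (le_of_eq ?_) (val_le_opt E f g)
  rw [h1, h2]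
  have e1 : (Set.range f).ncard = (Set.range f1).ncard + (Set.range f2).ncard := by
    have : Set.range f = Sum.inl '' (Set.range f1) ∪ Sum.inr '' (Set.range f2) := by
      ext z
      constructor
      · rintro ⟨x, rfl⟩
        by_cases hx : x ∈ A
        · left; exact ⟨f1 ⟨x, hx⟩, ⟨⟨x, hx⟩, rfl⟩, (hf1 x hx).symm⟩
        · right; exact ⟨f2 ⟨x, hx⟩, ⟨⟨x, hx⟩, rfl⟩, (hf2 x hx).symm⟩
      · rintro (⟨w, ⟨x, rfl⟩, rfl⟩ | ⟨w, ⟨x, rfl⟩, rfl⟩)
        · exact ⟨x.1, hf1 x.1 x.2⟩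
        · exact ⟨x.1, hf2 x.1 x.2⟩
    rw [this, Set.ncard_union_eq, Set.ncard_image_of_injective _ Sum.inl_injective,
      Set.ncard_image_of_injective _ Sum.inr_injective]
    · rw [Set.disjoint_left]
      rintro z ⟨w, -, rfl⟩ ⟨w', -, hw'⟩
      cases hw'
  have e2 : (Set.range g).ncard = (Set.range g1).ncard + (Set.range g2).ncard := by
    have : Set.range g = Sum.inl '' (Set.range g1) ∪ Sum.inr '' (Set.range g2) := by
      ext z
      constructor
      · rintro ⟨x, rfl⟩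
        by_cases hx : x ∈ B
        · left; exact ⟨g1 ⟨x, hx⟩, ⟨⟨x, hx⟩, rfl⟩, (hg1 x hx).symm⟩
        · right; exact ⟨g2 ⟨x, hx⟩, ⟨⟨x, hx⟩, rfl⟩, (hg2 x hx).symm⟩
      · rintro (⟨w, ⟨x, rfl⟩, rfl⟩ | ⟨w, ⟨x, rfl⟩, rfl⟩)
        · exact ⟨x.1, hg1 x.1 x.2⟩
        · exact ⟨x.1, hg2 x.1 x.2⟩
    rw [this, Set.ncard_union_eq, Set.ncard_image_of_injective _ Sum.inl_injective,
      Set.ncard_image_of_injective _ Sum.inr_injective]
    · rw [Set.disjoint_left]
      rintro z ⟨w, -, rfl⟩ ⟨w', -, hw'⟩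
      cases hw'
  have e3 : (imE E f g).ncard =
      (imE (fun (x : {x // x ∈ A}) (y : {y // y ∈ B}) => E x.1 y.1) f1 g1).ncard +
      (imE (fun (x : {x // x ∉ A}) (y : {y // y ∉ B}) => E x.1 y.1) f2 g2).ncard := by
    have : imE E f g =
        (fun q : ℕ × ℕ => ((Sum.inl q.1 : ℕ ⊕ ℕ), (Sum.inl q.2 : ℕ ⊕ ℕ))) ''
        (imE (fun (x : {x // x ∈ A}) (y : {y // y ∈ B}) => E x.1 y.1) f1 g1) ∪
        (fun q : ℕ × ℕ => ((Sum.inr q.1 : ℕ ⊕ ℕ), (Sum.inr q.2 : ℕ ⊕ ℕ))) ''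
        (imE (fun (x : {x // x ∉ A}) (y : {y // y ∉ B}) => E x.1 y.1) f2 g2) := by
      ext z
      constructor
      · rintro ⟨x, y, hxy, hx, hy⟩
        by_cases hxA : x ∈ A
        · left
          have hyB : y ∈ B := (h x y hxy).mp hxA
          refine ⟨(f1 ⟨x, hxA⟩, g1 ⟨y, hyB⟩), ⟨⟨x, hxA⟩, ⟨y, hyB⟩, hxy, rfl, rfl⟩, ?_⟩
          exact Prod.ext ((hf1 x hxA).symm.trans hx) ((hg1 y hyB).symm.trans hy)
        · right
          have hyB : y ∉ B := fun hy' => hxA ((h x y hxy).mpr hy')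
          refine ⟨(f2 ⟨x, hxA⟩, g2 ⟨y, hyB⟩), ⟨⟨x, hxA⟩, ⟨y, hyB⟩, hxy, rfl, rfl⟩, ?_⟩
          exact Prod.ext ((hf2 x hxA).symm.trans hx) ((hg2 y hyB).symm.trans hy)
      · rintro (⟨q, ⟨x, y, hxy, hx, hy⟩, rfl⟩ | ⟨q, ⟨x, y, hxy, hx, hy⟩, rfl⟩)
        · exact ⟨x.1, y.1, hxy, (hf1 x.1 x.2).trans (congrArg Sum.inl hx),
            (hg1 y.1 y.2).trans (congrArg Sum.inl hy)⟩
        · exact ⟨x.1, y.1, hxy, (hf2 x.1 x.2).trans (congrArg Sum.inr hx),
            (hg2 y.1 y.2).trans (congrArg Sum.inr hy)⟩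
    rw [this, Set.ncard_union_eq (hs := (imE_finite _ _ _).image _)
      (ht := (imE_finite _ _ _).image _), Set.ncard_image_of_injective,
      Set.ncard_image_of_injective]
    · intro p q hpq
      have h1 := congrArg Prod.fst hpq
      have h2 := congrArg Prod.snd hpq
      exact Prod.ext (Sum.inr_injective h1) (Sum.inr_injective h2)
    · intro p q hpq
      have h1 := congrArg Prod.fst hpq
      have h2 := congrArg Prod.snd hpq
      exact Prod.ext (Sum.inl_injective h1) (Sum.inl_injective h2)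
    · rw [Set.disjoint_left]
      rintro z ⟨w, -, rfl⟩ ⟨w', -, hw'⟩
      have := congrArg Prod.fst hw'
      cases this
  unfold val
  rw [e1, e2, e3]
  push_cast
  ring

end

section homs

variable {α β : Type*} [Finite α] [Finite β]

theorem homCount_congr {γ δ γ' δ' : Type*} (E : α → β → Prop) (F : γ → δ → Prop)
    (F' : γ' → δ' → Prop) (e1 : γ ≃ γ') (e2 : δ ≃ δ') (h : ∀ x y, F x y ↔ F' (e1 x) (e2 y)) :
    homCount E F = homCount E F' := by
  unfold homCount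
  apply Nat.card_congr
  refine
    { toFun := fun p => ⟨(fun x => e1 (p.1.1 x), fun y => e2 (p.1.2 y)), fun x y hxy =>
        (h _ _).mp (p.2 x y hxy)⟩
      invFun := fun p => ⟨(fun x => e1.symm (p.1.1 x), fun y => e2.symm (p.1.2 y)), fun x y hxy =>
        (h _ _).mpr (by simpa using p.2 x y hxy)⟩
      left_inv := fun p => by
        apply Subtype.ext; apply Prod.ext <;> funext z <;> simp
      right_inv := fun p => by
        apply Subtype.ext; apply Prod.ext <;> funext z <;> simp }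

theorem homCount_tensor {γ δ : Type*} [Finite γ] [Finite δ] (E : α → β → Prop)
    (F : γ → δ → Prop) (k : ℕ) :
    homCount E (fun (x : Fin k → γ) (y : Fin k → δ) => ∀ i, F (x i) (y i)) =
      (homCount E F) ^ k := by
  unfold homCount
  have h1 : Nat.card (Fin k → {p : (α → γ) × (β → δ) // ∀ x y, E x y → F (p.1 x) (p.2 y)}) =
      (Nat.card {p : (α → γ) × (β → δ) // ∀ x y, E x y → F (p.1 x) (p.2 y)}) ^ k := by
    rw [Nat.card_fun]
    simp
  rw [← h1]
  apply Nat.card_congr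
  exact
    { toFun := fun p i => ⟨(fun x => p.1.1 x i, fun y => p.1.2 y i), fun x y hxy => p.2 x y hxy i⟩
      invFun := fun q => ⟨(fun x i => (q i).1.1 x, fun y i => (q i).1.2 y), fun x y hxy i =>
        (q i).2 x y hxy⟩
      left_inv := fun p => rfl
      right_inv := fun q => rfl }

theorem homCount_le_sum {γ δ γ' δ' : Type*} [Finite γ] [Finite δ] [Finite γ'] [Finite δ']
    (E : α → β → Prop) (F : γ → δ → Prop) (G : γ' → δ' → Prop) :
    homCount E F ≤ homCount E (Sum.LiftRel F G) := by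
  unfold homCount
  apply Nat.card_le_card_of_injective
    (fun p => (⟨(fun x => Sum.inl (p.1.1 x), fun y => Sum.inl (p.1.2 y)), fun x y hxy =>
      Sum.LiftRel.inl (p.2 x y hxy)⟩ :
      {p : (α → γ ⊕ γ') × (β → δ ⊕ δ') // ∀ x y, E x y → Sum.LiftRel F G (p.1 x) (p.2 y)}))
  intro p q hpq
  have h0 := congrArg Subtype.val hpq
  have h1 := congrArg Prod.fst h0
  have h2 := congrArg Prod.snd h0
  apply Subtype.ext
  apply Prod.ext
  · funext x; exact Sum.inl_injective (congrFun h1 x)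
  · funext y; exact Sum.inl_injective (congrFun h2 y)

theorem homCount_le_sum' {γ δ γ' δ' : Type*} [Finite γ] [Finite δ] [Finite γ'] [Finite δ']
    (E : α → β → Prop) (F : γ → δ → Prop) (G : γ' → δ' → Prop) :
    homCount E G ≤ homCount E (Sum.LiftRel F G) := by
  unfold homCount
  apply Nat.card_le_card_of_injective
    (fun p => (⟨(fun x => Sum.inr (p.1.1 x), fun y => Sum.inr (p.1.2 y)), fun x y hxy =>
      Sum.LiftRel.inr (p.2 x y hxy)⟩ :
      {p : (α → γ ⊕ γ') × (β → δ ⊕ δ') // ∀ x y, E x y → Sum.LiftRel F G (p.1 x) (p.2 y)}))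
  intro p q hpq
  have h0 := congrArg Subtype.val hpq
  have h1 := congrArg Prod.fst h0
  have h2 := congrArg Prod.snd h0
  apply Subtype.ext
  apply Prod.ext
  · funext x; exact Sum.inr_injective (congrFun h1 x)
  · funext y; exact Sum.inr_injective (congrFun h2 y)

/-- the admissible splittings -/
abbrev Spl (E : α → β → Prop) : Type _ :=
  {s : Finset α × Finset β // ∀ x y, E x y → (x ∈ s.1 ↔ y ∈ s.2)}

theorem homCount_sum_le {γ δ γ' δ' : Type*} [Finite γ] [Finite δ] [Finite γ'] [Finite δ']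
    (E : α → β → Prop) (F : γ → δ → Prop) (G : γ' → δ' → Prop) [Fintype (Spl E)] :
    homCount E (Sum.LiftRel F G) ≤
      ∑ s : Spl E,
        homCount (fun (x : {x // x ∈ s.1.1}) (y : {y // y ∈ s.1.2}) => E x.1 y.1) F *
        homCount (fun (x : {x // x ∉ s.1.1}) (y : {y // y ∉ s.1.2}) => E x.1 y.1) G := by
  classical
  have hrhs : ∑ s : Spl E,
        homCount (fun (x : {x // x ∈ s.1.1}) (y : {y // y ∈ s.1.2}) => E x.1 y.1) F *
        homCount (fun (x : {x // x ∉ s.1.1}) (y : {y // y ∉ s.1.2}) => E x.1 y.1) G =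
      Nat.card (Σ s : Spl E,
        {p : ({x // x ∈ s.1.1} → γ) × ({y // y ∈ s.1.2} → δ) //
          ∀ x y, E x.1 y.1 → F (p.1 x) (p.2 y)} ×
        {p : ({x // x ∉ s.1.1} → γ') × ({y // y ∉ s.1.2} → δ') //
          ∀ x y, E x.1 y.1 → G (p.1 x) (p.2 y)}) := by
    rw [Nat.card_sigma]
    simp_rw [Nat.card_prod]
    rfl
  rw [hrhs]
  unfold homCount
  let Ψ : (Σ s : Spl E,
        {p : ({x // x ∈ s.1.1} → γ) × ({y // y ∈ s.1.2} → δ) //
          ∀ x y, E x.1 y.1 → F (p.1 x) (p.2 y)} ×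
        {p : ({x // x ∉ s.1.1} → γ') × ({y // y ∉ s.1.2} → δ') //
          ∀ x y, E x.1 y.1 → G (p.1 x) (p.2 y)}) →
      {p : (α → γ ⊕ γ') × (β → δ ⊕ δ') // ∀ x y, E x y → Sum.LiftRel F G (p.1 x) (p.2 y)} :=
    fun q => ⟨(fun x => if hx : x ∈ q.1.1.1 then Sum.inl (q.2.1.1.1 ⟨x, hx⟩)
        else Sum.inr (q.2.2.1.1 ⟨x, hx⟩),
      fun y => if hy : y ∈ q.1.1.2 then Sum.inl (q.2.1.1.2 ⟨y, hy⟩)
        else Sum.inr (q.2.2.1.2 ⟨y, hy⟩)), by
      intro x y hxy
      have h := q.1.2 x y hxy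
      by_cases hx : x ∈ q.1.1.1
      · have hy := h.mp hx
        simp only [dif_pos hx, dif_pos hy]
        exact Sum.LiftRel.inl (q.2.1.2 ⟨x, hx⟩ ⟨y, hy⟩ hxy)
      · have hy : y ∉ q.1.1.2 := fun hy => hx (h.mpr hy)
        simp only [dif_neg hx, dif_neg hy]
        exact Sum.LiftRel.inr (q.2.2.2 ⟨x, hx⟩ ⟨y, hy⟩ hxy)⟩
  apply Nat.card_le_card_of_surjective Ψ
  intro p
  have := Fintype.ofFinite α
  have := Fintype.ofFinite β
  have key : ∀ x y, E x y → (x ∈ (univ.filter (fun x => ∃ c, p.1.1 x = Sum.inl c)) ↔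
        y ∈ (univ.filter (fun y => ∃ c, p.1.2 y = Sum.inl c))) := by
    intro x y hxy
    simp only [Finset.mem_filter, Finset.mem_univ, true_and]
    have h := p.2 x y hxy
    constructor
    · rintro ⟨c, hc⟩
      rw [hc] at h
      cases h2 : p.1.2 y with
      | inl d => exact ⟨d, rfl⟩
      | inr d => rw [h2] at h; cases h
    · rintro ⟨c, hc⟩
      rw [hc] at h
      cases h2 : p.1.1 x with
      | inl d => exact ⟨d, rfl⟩
      | inr d => rw [h2] at h; cases h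
  let s : Spl E := ⟨(univ.filter (fun x => ∃ c, p.1.1 x = Sum.inl c),
    univ.filter (fun y => ∃ c, p.1.2 y = Sum.inl c)), key⟩
  have hf1 : ∀ x : {x // x ∈ s.1.1}, ∃ c, p.1.1 x.1 = Sum.inl c := fun x =>
    (Finset.mem_filter.mp x.2).2
  have hg1 : ∀ y : {y // y ∈ s.1.2}, ∃ c, p.1.2 y.1 = Sum.inl c := fun y =>
    (Finset.mem_filter.mp y.2).2
  have hf2 : ∀ x : {x // x ∉ s.1.1}, ∃ c, p.1.1 x.1 = Sum.inr c := fun x => by
    cases h : p.1.1 x.1 with
    | inl d => exact absurd (Finset.mem_filter.mpr ⟨mem_univ _, ⟨d, h⟩⟩) x.2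
    | inr d => exact ⟨d, rfl⟩
  have hg2 : ∀ y : {y // y ∉ s.1.2}, ∃ c, p.1.2 y.1 = Sum.inr c := fun y => by
    cases h : p.1.2 y.1 with
    | inl d => exact absurd (Finset.mem_filter.mpr ⟨mem_univ _, ⟨d, h⟩⟩) y.2
    | inr d => exact ⟨d, rfl⟩
  choose f1 hf1 using hf1
  choose g1 hg1 using hg1
  choose f2 hf2 using hf2
  choose g2 hg2 using hg2
  refine ⟨⟨s, ⟨(f1, g1), ?_⟩, ⟨(f2, g2), ?_⟩⟩, ?_⟩
  · intro x y hxy
    have h := p.2 x.1 y.1 hxy
    rw [hf1 x, hg1 y] at h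
    cases h with
    | inl h => exact h
  · intro x y hxy
    have h := p.2 x.1 y.1 hxy
    rw [hf2 x, hg2 y] at h
    cases h with
    | inr h => exact h
  · apply Subtype.ext
    apply Prod.ext
    · funext x
      simp only [Ψ]
      by_cases hx : x ∈ s.1.1
      · rw [dif_pos hx]; exact (hf1 ⟨x, hx⟩).symm
      · rw [dif_neg hx]; exact (hf2 ⟨x, hx⟩).symm
    · funext y
      simp only [Ψ]
      by_cases hy : y ∈ s.1.2
      · rw [dif_pos hy]; exact (hg1 ⟨y, hy⟩).symm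
      · rw [dif_neg hy]; exact (hg2 ⟨y, hy⟩).symm

end homs

end Pool.Agent.H140.LL
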