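import Mathlib
import Pool.Agent.H140.LL.Basic

set_option autoImplicit false
set_option linter.unusedSectionVars false

namespace Pool.Agent.H140.LL

open Finset

section overlap

variable {α β : Type*} [Finite α] [Finite β]

/-- Overlapping pairs of images lose three in the exponent. -/
theorem overlap {γ δ : Type*} (E : α → β → Prop) (f f' : α → γ) (g g' : β → δ)
    (h : (imE E f g ∩ imE E f' g').Nonempty) :
    2 * (((Set.range f ∪ Set.range f').ncard : ℤ) + ((Set.range g ∪ Set.range g').ncard : ℤ))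
      - ((imE E f g ∪ imE E f' g').ncard : ℤ) ≤ 2 * opt E - 3 := by
  classical
  obtain ⟨⟨a0, b0⟩, h1, h2⟩ := h
  obtain ⟨x1, y1, hxy1, hx1, hy1⟩ := h1
  obtain ⟨x2, y2, hxy2, hx2, hy2⟩ := h2
  simp only at hx1 hy1 hx2 hy2
  have ha0 : a0 ∈ Set.range f ∩ Set.range f' := ⟨⟨x1, hx1⟩, ⟨x2, hx2⟩⟩
  have hb0 : b0 ∈ Set.range g ∩ Set.range g' := ⟨⟨y1, hy1⟩, ⟨y2, hy2⟩⟩
  -- collapse the common part for the second pair
  let u : γ → γ := fun c => if c ∈ Set.range f ∩ Set.range f' then a0 else c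
  let v : δ → δ := fun c => if c ∈ Set.range g ∩ Set.range g' then b0 else c
  have hval := val_le_opt E (u ∘ f') (v ∘ g')
  have hval1 := val_le_opt E f g
  have hu0 : u a0 = a0 := by simp only [u, ite_self]
  have hv0 : v b0 = b0 := by simp only [v, ite_self]
  -- range of the collapsed map
  have hr1 : ((Set.range (u ∘ f')).ncard : ℤ) =
      ((Set.range f').ncard : ℤ) - ((Set.range f ∩ Set.range f').ncard : ℤ) + 1 := by
    have hset : Set.range (u ∘ f') = insert a0 (Set.range f' \ Set.range f) := by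
      ext c
      constructor
      · rintro ⟨x, rfl⟩
        by_cases hx : f' x ∈ Set.range f ∩ Set.range f'
        · left; simp only [Function.comp_apply, u, if_pos hx]
        · right
          simp only [Function.comp_apply, u, if_neg hx]
          exact ⟨⟨x, rfl⟩, fun h => hx ⟨h, ⟨x, rfl⟩⟩⟩
      · rintro (rfl | ⟨⟨x, rfl⟩, hx⟩)
        · exact ⟨x2, by simp only [Function.comp_apply, hx2, hu0]⟩
        · refine ⟨x, ?_⟩
          simp only [Function.comp_apply, u]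
          rw [if_neg (fun h => hx h.1)]
    have hfin : (Set.range f' \ Set.range f).Finite := (Set.finite_range f').sdiff
    rw [hset, Set.ncard_insert_of_notMem (fun h => h.2 ha0.1) hfin]
    have h3 := Set.ncard_inter_add_ncard_sdiff_eq_ncard (Set.range f') (Set.range f)
      (Set.finite_range f')
    rw [Set.inter_comm (Set.range f) (Set.range f')]
    push_cast
    have h4 : (((Set.range f' ∩ Set.range f).ncard : ℤ) + ((Set.range f' \ Set.range f).ncard : ℤ))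
      = ((Set.range f').ncard : ℤ) := by exact_mod_cast h3
    linarith
  have hr2 : ((Set.range (v ∘ g')).ncard : ℤ) =
      ((Set.range g').ncard : ℤ) - ((Set.range g ∩ Set.range g').ncard : ℤ) + 1 := by
    have hset : Set.range (v ∘ g') = insert b0 (Set.range g' \ Set.range g) := by
      ext c
      constructor
      · rintro ⟨x, rfl⟩
        by_cases hx : g' x ∈ Set.range g ∩ Set.range g'
        · left; simp only [Function.comp_apply, v, if_pos hx]
        · right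
          simp only [Function.comp_apply, v, if_neg hx]
          exact ⟨⟨x, rfl⟩, fun h => hx ⟨h, ⟨x, rfl⟩⟩⟩
      · rintro (rfl | ⟨⟨x, rfl⟩, hx⟩)
        · exact ⟨y2, by simp only [Function.comp_apply, hy2, hv0]⟩
        · refine ⟨x, ?_⟩
          simp only [Function.comp_apply, v]
          rw [if_neg (fun h => hx h.1)]
    have hfin : (Set.range g' \ Set.range g).Finite := (Set.finite_range g').sdiff
    rw [hset, Set.ncard_insert_of_notMem (fun h => h.2 hb0.1) hfin]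
    have h3 := Set.ncard_inter_add_ncard_sdiff_eq_ncard (Set.range g') (Set.range g)
      (Set.finite_range g')
    rw [Set.inter_comm (Set.range g) (Set.range g')]
    push_cast
    have h4 : (((Set.range g' ∩ Set.range g).ncard : ℤ) + ((Set.range g' \ Set.range g).ncard : ℤ))
      = ((Set.range g').ncard : ℤ) := by exact_mod_cast h3
    linarith
  -- edges of the collapsed map
  have he : ((imE E (u ∘ f') (v ∘ g')).ncard : ℤ) ≤
      ((imE E f' g').ncard : ℤ) - ((imE E f g ∩ imE E f' g').ncard : ℤ) + 1 := by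
    have hsub : imE E (u ∘ f') (v ∘ g') ⊆
        insert (a0, b0) ((fun q : γ × δ => (u q.1, v q.2)) '' (imE E f' g' \ imE E f g)) := by
      rintro ⟨c, d⟩ ⟨x, y, hxy, hc, hd⟩
      simp only [Function.comp_apply] at hc hd
      by_cases hq : (f' x, g' y) ∈ imE E f g
      · left
        obtain ⟨x', y', -, hx', hy'⟩ := hq
        simp only at hx' hy'
        have e1 : f' x ∈ Set.range f ∩ Set.range f' := ⟨⟨x', hx'⟩, ⟨x, rfl⟩⟩
        have e2 : g' y ∈ Set.range g ∩ Set.range g' := ⟨⟨y', hy'⟩, ⟨y, rfl⟩⟩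
        simp only [u, if_pos e1] at hc
        simp only [v, if_pos e2] at hd
        rw [← hc, ← hd]
      · right
        exact ⟨(f' x, g' y), ⟨⟨x, y, hxy, rfl, rfl⟩, hq⟩, Prod.ext hc hd⟩
    have hfin : (imE E f' g' \ imE E f g).Finite := (imE_finite _ _ _).sdiff
    have h3 := Set.ncard_le_ncard hsub ((hfin.image _).insert _)
    have h4 := Set.ncard_insert_le (a0, b0)
      ((fun q : γ × δ => (u q.1, v q.2)) '' (imE E f' g' \ imE E f g))
    have h5 := Set.ncard_image_le (f := fun q : γ × δ => (u q.1, v q.2)) hfin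
    have h6 := Set.ncard_inter_add_ncard_sdiff_eq_ncard (imE E f' g') (imE E f g)
      (imE_finite _ _ _)
    rw [Set.inter_comm (imE E f g) (imE E f' g')]
    have h7 : (((imE E f' g' ∩ imE E f g).ncard : ℤ) + ((imE E f' g' \ imE E f g).ncard : ℤ))
      = ((imE E f' g').ncard : ℤ) := by exact_mod_cast h6
    have h8 : ((imE E (u ∘ f') (v ∘ g')).ncard : ℤ) ≤ ((imE E f' g' \ imE E f g).ncard : ℤ) + 1 := by
      exact_mod_cast h3.trans (h4.trans (Nat.add_le_add_right h5 1))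
    linarith
  have hU1 := Set.ncard_union_add_ncard_inter (Set.range f) (Set.range f')
    (Set.finite_range f) (Set.finite_range f')
  have hU2 := Set.ncard_union_add_ncard_inter (Set.range g) (Set.range g')
    (Set.finite_range g) (Set.finite_range g')
  have hU3 := Set.ncard_union_add_ncard_inter (imE E f g) (imE E f' g')
    (imE_finite _ _ _) (imE_finite _ _ _)
  have hU1' : ((Set.range f ∪ Set.range f').ncard : ℤ) + ((Set.range f ∩ Set.range f').ncard : ℤ)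
    = ((Set.range f).ncard : ℤ) + ((Set.range f').ncard : ℤ) := by exact_mod_cast hU1
  have hU2' : ((Set.range g ∪ Set.range g').ncard : ℤ) + ((Set.range g ∩ Set.range g').ncard : ℤ)
    = ((Set.range g).ncard : ℤ) + ((Set.range g').ncard : ℤ) := by exact_mod_cast hU2
  have hU3' : ((imE E f g ∪ imE E f' g').ncard : ℤ) + ((imE E f g ∩ imE E f' g').ncard : ℤ)
    = ((imE E f g).ncard : ℤ) + ((imE E f' g').ncard : ℤ) := by exact_mod_cast hU3
  unfold val at hval hval1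
  rw [hr1, hr2] at hval
  linarith

end overlap

section sums

/-- `∑ N^{-|im f|}` over all maps `Fin n → Fin N` is at most `n!`. -/
theorem sum_range_le (N : ℕ) (hN : 0 < N) (n : ℕ) :
    ∑ f : Fin n → Fin N, ((1 : ℝ) / N) ^ (Set.range f).ncard ≤ (n.factorial : ℝ) := by
  classical
  have hNR : (0 : ℝ) < N := by exact_mod_cast hN
  induction n with
  | zero =>
    simp
  | succ n ih =>
    rw [← (Fin.consEquiv (fun _ : Fin (n + 1) => Fin N)).sum_comp, Fintype.sum_prod_type_right]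
    have hstep : ∀ f : Fin n → Fin N, ∑ x : Fin N,
        ((1 : ℝ) / N) ^ (Set.range ((Fin.consEquiv (fun _ : Fin (n + 1) => Fin N)) (x, f))).ncard ≤
        ((n : ℝ) + 1) * ((1 : ℝ) / N) ^ (Set.range f).ncard := by
      intro f
      have hr : ∀ x, Set.range ((Fin.consEquiv (fun _ : Fin (n + 1) => Fin N)) (x, f)) =
          insert x (Set.range f) := by
        intro x
        exact Fin.range_cons x f
      have hval : ∀ x, ((1 : ℝ) / N) ^
          (Set.range ((Fin.consEquiv (fun _ : Fin (n + 1) => Fin N)) (x, f))).ncard ≤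
          (if x ∈ Set.range f then ((1 : ℝ) / N) ^ (Set.range f).ncard else 0) +
          ((1 : ℝ) / N) * ((1 : ℝ) / N) ^ (Set.range f).ncard := by
        intro x
        rw [hr x]
        by_cases hx : x ∈ Set.range f
        · rw [if_pos hx, Set.insert_eq_of_mem hx]
          have : 0 ≤ ((1 : ℝ) / N) * ((1 : ℝ) / N) ^ (Set.range f).ncard := by positivity
          linarith
        · rw [if_neg hx, Set.ncard_insert_of_notMem hx (Set.finite_range f), pow_succ]
          linarith [mul_comm ((1 : ℝ) / N) (((1 : ℝ) / N) ^ (Set.range f).ncard)]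
      refine (Finset.sum_le_sum (fun x _ => hval x)).trans ?_
      rw [Finset.sum_add_distrib, Finset.sum_const, Finset.card_univ, Fintype.card_fin,
        nsmul_eq_mul, ← Finset.sum_filter, Finset.sum_const, nsmul_eq_mul]
      have h1 : ((univ.filter (fun x => x ∈ Set.range f)).card : ℝ) ≤ n := by
        have : (univ.filter (fun x => x ∈ Set.range f)) = univ.image f := by
          ext x; simp
        rw [this]
        have h2 : (univ.image f).card ≤ n := by
          refine Finset.card_image_le.trans ?_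
          simp
        exact_mod_cast h2
      have h3 : (0 : ℝ) ≤ ((1 : ℝ) / N) ^ (Set.range f).ncard := by positivity
      have h4 : (N : ℝ) * ((1 : ℝ) / N * ((1 : ℝ) / N) ^ (Set.range f).ncard) =
          ((1 : ℝ) / N) ^ (Set.range f).ncard := by
        field_simp
      rw [h4]
      nlinarith
    refine (Finset.sum_le_sum (fun f _ => hstep f)).trans ?_
    rw [← Finset.mul_sum, Nat.factorial_succ]
    push_cast
    exact mul_le_mul_of_nonneg_left ih (by positivity)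

theorem sum_range_le' {α : Type*} [Fintype α] (N : ℕ) (hN : 0 < N) [Fintype (α → Fin N)] :
    ∑ f : α → Fin N, ((1 : ℝ) / N) ^ (Set.range f).ncard ≤ ((Fintype.card α).factorial : ℝ) := by
  classical
  let e := Fintype.equivFin α
  refine le_trans (le_of_eq ?_) (sum_range_le N hN (Fintype.card α))
  refine Fintype.sum_equiv (Equiv.arrowCongr e (Equiv.refl (Fin N))) _ _ ?_
  intro f
  have : Set.range ((Equiv.arrowCongr e (Equiv.refl (Fin N))) f) = Set.range f := by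
    have h1 : ((Equiv.arrowCongr e (Equiv.refl (Fin N))) f) = f ∘ e.symm := rfl
    rw [h1, Set.range_comp, e.symm.surjective.range_eq, Set.image_univ]
  rw [this]

theorem sum_range_pair_le {α : Type*} [Fintype α] (N : ℕ) (hN : 0 < N) [Fintype (α → Fin N)] :
    ∑ f : α → Fin N, ∑ f' : α → Fin N, ((1 : ℝ) / N) ^ (Set.range f ∪ Set.range f').ncard ≤
      ((2 * Fintype.card α).factorial : ℝ) := by
  classical
  have h := sum_range_le' (α := α ⊕ α) N hN
  rw [Fintype.card_sum, ← two_mul] at h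
  refine le_trans (le_of_eq ?_) h
  rw [← Fintype.sum_prod_type']
  refine Fintype.sum_equiv (Equiv.sumArrowEquivProdArrow α α (Fin N)).symm _ _ ?_
  rintro ⟨f, f'⟩
  have : Set.range ((Equiv.sumArrowEquivProdArrow α α (Fin N)).symm (f, f')) =
      Set.range f ∪ Set.range f' := by
    exact Set.Sum.elim_range f f'
  rw [this]

end sums

section prob

variable {α β : Type*} [Fintype α] [Fintype β]

/-- The bipartite relation on `Fin Q² × Fin Q²` given by the zeros of `g`. -/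
def rel (Q : ℕ) (g : Fin (Q ^ 2) × Fin (Q ^ 2) → Fin Q) (x y : Fin (Q ^ 2)) : Prop :=
  (g (x, y)).val = 0

theorem count_zero (Q : ℕ) (hQ : 0 < Q) (T : Finset (Fin (Q ^ 2) × Fin (Q ^ 2))) :
    ((univ.filter (fun g : Fin (Q ^ 2) × Fin (Q ^ 2) → Fin Q =>
      ∀ q ∈ T, (g q).val = 0)).card : ℝ) =
      (Q : ℝ) ^ (Q ^ 2 * Q ^ 2) * ((1 : ℝ) / Q) ^ T.card := by
  classical
  have hQR : (0 : ℝ) < Q := by exact_mod_cast hQ
  have h1 : univ.filter (fun g : Fin (Q ^ 2) × Fin (Q ^ 2) → Fin Q =>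
      ∀ q ∈ T, (g q).val = 0) =
      Fintype.piFinset (fun q => if q ∈ T then ({⟨0, hQ⟩} : Finset (Fin Q)) else univ) := by
    ext g
    simp only [Finset.mem_filter, Finset.mem_univ, true_and, Fintype.mem_piFinset]
    constructor
    · intro h q
      by_cases hq : q ∈ T
      · rw [if_pos hq, Finset.mem_singleton]
        exact Fin.ext (h q hq)
      · rw [if_neg hq]; exact Finset.mem_univ _
    · intro h q hq
      have := h q
      rw [if_pos hq, Finset.mem_singleton] at this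
      rw [this]
  rw [h1, Fintype.card_piFinset]
  have h2 : ∀ q : Fin (Q ^ 2) × Fin (Q ^ 2),
      (if q ∈ T then ({⟨0, hQ⟩} : Finset (Fin Q)) else univ).card = if q ∈ T then 1 else Q := by
    intro q; split_ifs <;> simp
  simp_rw [h2]
  rw [Finset.prod_ite]
  simp only [Finset.prod_const_one, one_mul, Finset.prod_const]
  have h3 : (univ.filter (fun q : Fin (Q ^ 2) × Fin (Q ^ 2) => q ∉ T)).card + T.card =
      Q ^ 2 * Q ^ 2 := by
    have h4 := Finset.card_filter_add_card_filter_not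
      (s := (univ : Finset (Fin (Q ^ 2) × Fin (Q ^ 2)))) (p := fun q => q ∈ T)
    rw [Finset.filter_mem_eq_inter, Finset.univ_inter, Finset.card_univ, Fintype.card_prod,
      Fintype.card_fin] at h4
    omega
  rw [← h3]
  push_cast
  rw [pow_add, mul_assoc, ← mul_pow, mul_one_div_cancel hQR.ne', one_pow, mul_one]

open Classical in
/-- the edge image as a finset -/
noncomputable def TE {γ δ : Type*} (E : α → β → Prop) (φ : (α → γ) × (β → δ)) :
    Finset (γ × δ) := (imE_finite E φ.1 φ.2).toFinset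

theorem TE_card {γ δ : Type*} (E : α → β → Prop) (φ : (α → γ) × (β → δ)) :
    (TE E φ).card = (imE E φ.1 φ.2).ncard := by
  unfold TE
  rw [Set.ncard_eq_toFinset_card _ (imE_finite E φ.1 φ.2)]

theorem TE_union_card {γ δ : Type*} [DecidableEq (γ × δ)] (E : α → β → Prop) (φ ψ : (α → γ) × (β → δ)) :
    (TE E φ ∪ TE E ψ).card = (imE E φ.1 φ.2 ∪ imE E ψ.1 ψ.2).ncard := by
  have h : imE E φ.1 φ.2 ∪ imE E ψ.1 ψ.2 = ((TE E φ ∪ TE E ψ : Finset (γ × δ)) : Set (γ × δ)) := by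
    rw [Finset.coe_union]
    unfold TE
    rw [Set.Finite.coe_toFinset, Set.Finite.coe_toFinset]
  rw [h, Set.ncard_coe_finset]

open Classical in
theorem homCount_eq_sum (Q : ℕ) (E : α → β → Prop) (g : Fin (Q ^ 2) × Fin (Q ^ 2) → Fin Q) :
    (homCount E (rel Q g) : ℝ) = ∑ φ : (α → Fin (Q ^ 2)) × (β → Fin (Q ^ 2)),
      if (∀ q ∈ TE E φ, (g q).val = 0) then (1 : ℝ) else 0 := by
  unfold homCount
  rw [Nat.card_eq_fintype_card, Fintype.card_subtype, Finset.sum_boole]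
  congr 2
  apply Finset.filter_congr
  intro φ _
  unfold TE rel
  simp only [Set.Finite.mem_toFinset]
  constructor
  · rintro h ⟨c, d⟩ ⟨x, y, hxy, hx, hy⟩
    simp only at hx hy
    rw [← hx, ← hy]
    exact h x y hxy
  · intro h x y hxy
    exact h (φ.1 x, φ.2 y) ⟨x, y, hxy, rfl, rfl⟩

open Classical in
/-- expected number of homomorphisms -/
noncomputable def mu (Q : ℕ) (E : α → β → Prop) : ℝ :=
  ∑ φ : (α → Fin (Q ^ 2)) × (β → Fin (Q ^ 2)), ((1 : ℝ) / Q) ^ (TE E φ).card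

open Classical in
theorem sum_hom (Q : ℕ) (hQ : 0 < Q) (E : α → β → Prop) :
    ∑ g : Fin (Q ^ 2) × Fin (Q ^ 2) → Fin Q, (homCount E (rel Q g) : ℝ) =
      (Q : ℝ) ^ (Q ^ 2 * Q ^ 2) * mu Q E := by
  simp_rw [homCount_eq_sum]
  rw [Finset.sum_comm]
  unfold mu
  rw [Finset.mul_sum]
  apply Finset.sum_congr rfl
  intro φ _
  rw [Finset.sum_boole, ← count_zero Q hQ]

open Classical in
theorem sum_hom_sq (Q : ℕ) (hQ : 0 < Q) (E : α → β → Prop) :
    ∑ g : Fin (Q ^ 2) × Fin (Q ^ 2) → Fin Q, (homCount E (rel Q g) : ℝ) ^ 2 =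
      (Q : ℝ) ^ (Q ^ 2 * Q ^ 2) * ∑ φ : (α → Fin (Q ^ 2)) × (β → Fin (Q ^ 2)),
        ∑ ψ : (α → Fin (Q ^ 2)) × (β → Fin (Q ^ 2)), ((1 : ℝ) / Q) ^ (TE E φ ∪ TE E ψ).card := by
  have hsq : ∀ g : Fin (Q ^ 2) × Fin (Q ^ 2) → Fin Q, (homCount E (rel Q g) : ℝ) ^ 2 =
      ∑ φ : (α → Fin (Q ^ 2)) × (β → Fin (Q ^ 2)), ∑ ψ : (α → Fin (Q ^ 2)) × (β → Fin (Q ^ 2)),
        (if (∀ q ∈ TE E φ, (g q).val = 0) then (1 : ℝ) else 0) *
          (if (∀ q ∈ TE E ψ, (g q).val = 0) then (1 : ℝ) else 0) := by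
    intro g
    rw [sq, homCount_eq_sum, Finset.sum_mul_sum]
  simp_rw [hsq]
  rw [Finset.sum_comm]
  rw [Finset.mul_sum]
  apply Finset.sum_congr rfl
  intro φ _
  rw [Finset.sum_comm, Finset.mul_sum]
  apply Finset.sum_congr rfl
  intro ψ _
  rw [← count_zero Q hQ, ← Finset.sum_boole]
  apply Finset.sum_congr rfl
  intro g _
  by_cases h1 : ∀ q ∈ TE E φ, (g q).val = 0
  · by_cases h2 : ∀ q ∈ TE E ψ, (g q).val = 0
    · rw [if_pos h1, if_pos h2, if_pos, one_mul]
      intro q hq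
      rcases Finset.mem_union.mp hq with h | h
      · exact h1 q h
      · exact h2 q h
    · rw [if_neg h2, mul_zero, if_neg]
      intro h; exact h2 (fun q hq => h q (Finset.mem_union_right _ hq))
  · rw [if_neg h1, zero_mul, if_neg]
    intro h; exact h1 (fun q hq => h q (Finset.mem_union_left _ hq))

theorem pow_le_zpow (Q : ℕ) (hQ : 0 < Q) (m n1 n2 : ℕ) (F : ℤ)
    (h : 2 * ((n1 : ℤ) + n2) - m ≤ F) :
    ((1 : ℝ) / Q) ^ m ≤ (Q : ℝ) ^ F * (((1 : ℝ) / ((Q ^ 2 : ℕ) : ℝ)) ^ n1 *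
      ((1 : ℝ) / ((Q ^ 2 : ℕ) : ℝ)) ^ n2) := by
  have hQR : (0 : ℝ) < Q := by exact_mod_cast hQ
  have hQ1 : (1 : ℝ) ≤ Q := by exact_mod_cast hQ
  have e1 : ((1 : ℝ) / Q) ^ m = (Q : ℝ) ^ (-(m : ℤ)) := by
    rw [zpow_neg, zpow_natCast, one_div, inv_pow]
  have e2 : ∀ n : ℕ, ((1 : ℝ) / ((Q ^ 2 : ℕ) : ℝ)) ^ n = (Q : ℝ) ^ (-(2 * (n : ℤ))) := by
    intro n
    rw [zpow_neg, one_div, inv_pow]
    push_cast
    rw [← pow_mul]
    congr 1
  rw [e1, e2, e2, ← zpow_add₀ hQR.ne', ← zpow_add₀ hQR.ne']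
  apply zpow_le_zpow_right₀ hQ1
  linarith

open Classical in
/-- the variance bound -/
theorem variance_le (Q : ℕ) (hQ : 0 < Q) (E : α → β → Prop) :
    ∑ g : Fin (Q ^ 2) × Fin (Q ^ 2) → Fin Q, ((homCount E (rel Q g) : ℝ) - mu Q E) ^ 2 ≤
      (Q : ℝ) ^ (Q ^ 2 * Q ^ 2) * ((Q : ℝ) ^ (2 * opt E - 3) *
        (((2 * Fintype.card α).factorial : ℝ) * ((2 * Fintype.card β).factorial : ℝ))) := by
  have hQR : (0 : ℝ) < Q := by exact_mod_cast hQ
  have hcard : (Fintype.card (Fin (Q ^ 2) × Fin (Q ^ 2) → Fin Q) : ℝ) =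
      (Q : ℝ) ^ (Q ^ 2 * Q ^ 2) := by
    rw [Fintype.card_fun, Fintype.card_prod, Fintype.card_fin, Fintype.card_fin]
    push_cast; rfl
  have h1 : ∑ g : Fin (Q ^ 2) × Fin (Q ^ 2) → Fin Q, ((homCount E (rel Q g) : ℝ) - mu Q E) ^ 2 =
      (Q : ℝ) ^ (Q ^ 2 * Q ^ 2) * (∑ φ : (α → Fin (Q ^ 2)) × (β → Fin (Q ^ 2)),
        ∑ ψ : (α → Fin (Q ^ 2)) × (β → Fin (Q ^ 2)),
        (((1 : ℝ) / Q) ^ (TE E φ ∪ TE E ψ).card -
          ((1 : ℝ) / Q) ^ (TE E φ).card * ((1 : ℝ) / Q) ^ (TE E ψ).card)) := by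
    have e : ∀ g : Fin (Q ^ 2) × Fin (Q ^ 2) → Fin Q,
        ((homCount E (rel Q g) : ℝ) - mu Q E) ^ 2 =
        (homCount E (rel Q g) : ℝ) ^ 2 - 2 * mu Q E * (homCount E (rel Q g) : ℝ) + mu Q E ^ 2 := by
      intro g; ring
    simp_rw [e]
    rw [Finset.sum_add_distrib, Finset.sum_sub_distrib, ← Finset.mul_sum, sum_hom Q hQ,
      sum_hom_sq Q hQ, Finset.sum_const, Finset.card_univ, nsmul_eq_mul, hcard]
    simp_rw [Finset.sum_sub_distrib]
    have e2 : mu Q E ^ 2 = ∑ φ : (α → Fin (Q ^ 2)) × (β → Fin (Q ^ 2)),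
        ∑ ψ : (α → Fin (Q ^ 2)) × (β → Fin (Q ^ 2)),
        ((1 : ℝ) / Q) ^ (TE E φ).card * ((1 : ℝ) / Q) ^ (TE E ψ).card := by
      rw [sq]; unfold mu; rw [Finset.sum_mul_sum]
    rw [← e2]
    ring
  rw [h1]
  apply mul_le_mul_of_nonneg_left _ (by positivity)
  -- termwise bound
  have hterm : ∀ φ ψ : (α → Fin (Q ^ 2)) × (β → Fin (Q ^ 2)),
      ((1 : ℝ) / Q) ^ (TE E φ ∪ TE E ψ).card -
          ((1 : ℝ) / Q) ^ (TE E φ).card * ((1 : ℝ) / Q) ^ (TE E ψ).card ≤
      (Q : ℝ) ^ (2 * opt E - 3) *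
        (((1 : ℝ) / ((Q ^ 2 : ℕ) : ℝ)) ^ (Set.range φ.1 ∪ Set.range ψ.1).ncard *
          ((1 : ℝ) / ((Q ^ 2 : ℕ) : ℝ)) ^ (Set.range φ.2 ∪ Set.range ψ.2).ncard) := by
    intro φ ψ
    by_cases hov : (imE E φ.1 φ.2 ∩ imE E ψ.1 ψ.2).Nonempty
    · have h2 := overlap E φ.1 ψ.1 φ.2 ψ.2 hov
      have h3 := pow_le_zpow Q hQ (TE E φ ∪ TE E ψ).card (Set.range φ.1 ∪ Set.range ψ.1).ncard
        (Set.range φ.2 ∪ Set.range ψ.2).ncard (2 * opt E - 3) (by rw [TE_union_card]; exact h2)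
      have h4 : 0 ≤ ((1 : ℝ) / Q) ^ (TE E φ).card * ((1 : ℝ) / Q) ^ (TE E ψ).card := by positivity
      linarith
    · have hdisj : Disjoint (TE E φ) (TE E ψ) := by
        rw [Finset.disjoint_left]
        intro q hq1 hq2
        apply hov
        unfold TE at hq1 hq2
        rw [Set.Finite.mem_toFinset] at hq1 hq2
        exact ⟨q, hq1, hq2⟩
      rw [Finset.card_union_of_disjoint hdisj, pow_add, sub_self]
      positivity
  refine (Finset.sum_le_sum (fun φ _ => Finset.sum_le_sum (fun ψ _ => hterm φ ψ))).trans ?_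
  simp_rw [← Finset.mul_sum]
  apply mul_le_mul_of_nonneg_left _ (by positivity)
  have hN : 0 < Q ^ 2 := by positivity
  have hs1 := sum_range_pair_le (α := α) (Q ^ 2) hN
  have hs2 := sum_range_pair_le (α := β) (Q ^ 2) hN
  have e3 : ∑ φ : (α → Fin (Q ^ 2)) × (β → Fin (Q ^ 2)),
      ∑ ψ : (α → Fin (Q ^ 2)) × (β → Fin (Q ^ 2)),
        (((1 : ℝ) / ((Q ^ 2 : ℕ) : ℝ)) ^ (Set.range φ.1 ∪ Set.range ψ.1).ncard *
          ((1 : ℝ) / ((Q ^ 2 : ℕ) : ℝ)) ^ (Set.range φ.2 ∪ Set.range ψ.2).ncard) =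
      (∑ f : α → Fin (Q ^ 2), ∑ f' : α → Fin (Q ^ 2),
        ((1 : ℝ) / ((Q ^ 2 : ℕ) : ℝ)) ^ (Set.range f ∪ Set.range f').ncard) *
      (∑ f : β → Fin (Q ^ 2), ∑ f' : β → Fin (Q ^ 2),
        ((1 : ℝ) / ((Q ^ 2 : ℕ) : ℝ)) ^ (Set.range f ∪ Set.range f').ncard) := by
    rw [Finset.sum_mul_sum, Fintype.sum_prod_type]
    apply Finset.sum_congr rfl
    intro f _
    apply Finset.sum_congr rfl
    intro g _
    rw [Fintype.sum_prod_type, Finset.sum_mul_sum]
  rw [e3]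
  exact mul_le_mul hs1 hs2 (by positivity) (by positivity)

open Classical in
theorem mu_le (Q : ℕ) (hQ : 0 < Q) (E : α → β → Prop) :
    mu Q E ≤ (Q : ℝ) ^ (opt E) *
      (((Fintype.card α).factorial : ℝ) * ((Fintype.card β).factorial : ℝ)) := by
  have hQR : (0 : ℝ) < Q := by exact_mod_cast hQ
  have hterm : ∀ φ : (α → Fin (Q ^ 2)) × (β → Fin (Q ^ 2)),
      ((1 : ℝ) / Q) ^ (TE E φ).card ≤ (Q : ℝ) ^ (opt E) *
        (((1 : ℝ) / ((Q ^ 2 : ℕ) : ℝ)) ^ (Set.range φ.1).ncard *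
          ((1 : ℝ) / ((Q ^ 2 : ℕ) : ℝ)) ^ (Set.range φ.2).ncard) := by
    intro φ
    apply pow_le_zpow Q hQ
    have := val_le_opt E φ.1 φ.2
    unfold val at this
    rw [TE_card]
    exact this
  unfold mu
  refine (Finset.sum_le_sum (fun φ _ => hterm φ)).trans ?_
  rw [← Finset.mul_sum]
  apply mul_le_mul_of_nonneg_left _ (by positivity)
  rw [Fintype.sum_prod_type]
  simp_rw [← Finset.mul_sum]
  rw [← Finset.sum_mul]
  have hN : 0 < Q ^ 2 := by positivity
  exact mul_le_mul (sum_range_le' (α := α) (Q ^ 2) hN) (sum_range_le' (α := β) (Q ^ 2) hN)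
    (by positivity) (by positivity)

open Classical in
theorem le_mu (Q : ℕ) (E : α → β → Prop)
    (hQ : 2 * (Fintype.card α + Fintype.card β) + 1 ≤ Q) :
    (Q : ℝ) ^ (opt E) / 2 ^ (Fintype.card α + Fintype.card β) ≤ mu Q E := by
  have hQ0 : 0 < Q := by omega
  have hQR : (0 : ℝ) < Q := by exact_mod_cast hQ0
  obtain ⟨f0, g0, hopt⟩ := exists_opt E
  have hfinf : (Set.range f0).Finite := Set.finite_range f0
  have hfing : (Set.range g0).Finite := Set.finite_range g0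
  have : Fintype (Set.range f0) := hfinf.fintype
  have : Fintype (Set.range g0) := hfing.fintype
  -- the injection from pairs of embeddings
  let Φ : (Set.range f0 ↪ Fin (Q ^ 2)) × (Set.range g0 ↪ Fin (Q ^ 2)) →
      (α → Fin (Q ^ 2)) × (β → Fin (Q ^ 2)) := fun e =>
    (fun x => e.1 ⟨f0 x, ⟨x, rfl⟩⟩, fun y => e.2 ⟨g0 y, ⟨y, rfl⟩⟩)
  have hΦ : Function.Injective Φ := by
    intro e e' h
    have h1 := congrArg Prod.fst h
    have h2 := congrArg Prod.snd h
    apply Prod.ext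
    · ext ⟨c, x, rfl⟩
      exact congrArg Fin.val (congrFun h1 x)
    · ext ⟨c, x, rfl⟩
      exact congrArg Fin.val (congrFun h2 x)
  have hcardT : ∀ e, (TE E (Φ e)).card = (imE E f0 g0).ncard := by
    intro e
    rw [TE_card]
    have : imE E (Φ e).1 (Φ e).2 = (fun q : Set.range f0 × Set.range g0 => (e.1 q.1, e.2 q.2)) ''
        {q | (q.1.1, q.2.1) ∈ imE E f0 g0} := by
      ext q
      constructor
      · rintro ⟨x, y, hxy, hx, hy⟩
        exact ⟨(⟨f0 x, ⟨x, rfl⟩⟩, ⟨g0 y, ⟨y, rfl⟩⟩), ⟨x, y, hxy, rfl, rfl⟩, Prod.ext hx hy⟩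
      · rintro ⟨⟨⟨c, hc⟩, ⟨d, hd⟩⟩, ⟨x, y, hxy, hx, hy⟩, rfl⟩
        simp only at hx hy
        subst hx; subst hy
        exact ⟨x, y, hxy, rfl, rfl⟩
    rw [this, Set.ncard_image_of_injective]
    · have h2 : imE E f0 g0 = (fun q : Set.range f0 × Set.range g0 => (q.1.1, q.2.1)) ''
          {q | (q.1.1, q.2.1) ∈ imE E f0 g0} := by
        ext q
        constructor
        · rintro ⟨x, y, hxy, hx, hy⟩
          exact ⟨(⟨f0 x, ⟨x, rfl⟩⟩, ⟨g0 y, ⟨y, rfl⟩⟩), ⟨x, y, hxy, rfl, rfl⟩, Prod.ext hx hy⟩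
        · rintro ⟨q', hq', rfl⟩; exact hq'
      conv_rhs => rw [h2]
      rw [Set.ncard_image_of_injective]
      intro q q' h
      have h1 := congrArg Prod.fst h
      have h2 := congrArg Prod.snd h
      exact Prod.ext (Subtype.ext h1) (Subtype.ext h2)
    · intro q q' h
      have h1 := congrArg Prod.fst h
      have h2 := congrArg Prod.snd h
      exact Prod.ext (e.1.injective h1) (e.2.injective h2)
  have hlow : ∑ e : (Set.range f0 ↪ Fin (Q ^ 2)) × (Set.range g0 ↪ Fin (Q ^ 2)),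
      ((1 : ℝ) / Q) ^ (imE E f0 g0).ncard ≤ mu Q E := by
    have h1 : ∑ e : (Set.range f0 ↪ Fin (Q ^ 2)) × (Set.range g0 ↪ Fin (Q ^ 2)),
      ((1 : ℝ) / Q) ^ (imE E f0 g0).ncard =
      ∑ φ ∈ univ.image Φ, ((1 : ℝ) / Q) ^ (TE E φ).card := by
      rw [Finset.sum_image hΦ.injOn]
      apply Finset.sum_congr rfl
      intro e _
      rw [hcardT]
    rw [h1]
    unfold mu
    apply Finset.sum_le_sum_of_subset_of_nonneg (Finset.subset_univ _)
    intro φ _ _
    positivity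
  refine le_trans ?_ hlow
  rw [Finset.sum_const, Finset.card_univ, Fintype.card_prod, Fintype.card_embedding_eq,
    Fintype.card_embedding_eq, nsmul_eq_mul, Fintype.card_fin]
  have hn1 : Fintype.card (Set.range f0) = (Set.range f0).ncard := by
    rw [← Nat.card_eq_fintype_card]; rfl
  have hn2 : Fintype.card (Set.range g0) = (Set.range g0).ncard := by
    rw [← Nat.card_eq_fintype_card]; rfl
  rw [hn1, hn2]
  have hle1 : (Set.range f0).ncard ≤ Fintype.card α := by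
    have := range_ncard_le f0; rwa [Nat.card_eq_fintype_card] at this
  have hle2 : (Set.range g0).ncard ≤ Fintype.card β := by
    have := range_ncard_le g0; rwa [Nat.card_eq_fintype_card] at this
  set n1 := (Set.range f0).ncard
  set n2 := (Set.range g0).ncard
  set m := (imE E f0 g0).ncard
  have hdesc : ∀ n : ℕ, n ≤ Fintype.card α + Fintype.card β →
      ((Q : ℝ) ^ 2 / 2) ^ n ≤ ((Q ^ 2).descFactorial n : ℝ) := by
    intro n hn
    have h1 := Nat.pow_sub_le_descFactorial (Q ^ 2) n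
    have h2 : ((Q : ℝ) ^ 2 / 2) ≤ ((Q ^ 2 + 1 - n : ℕ) : ℝ) := by
      have h3 : n ≤ Q ^ 2 + 1 := by nlinarith
      rw [Nat.cast_sub h3]
      push_cast
      have h4 : 2 * (n : ℝ) + 1 ≤ Q := by
        have : 2 * n + 1 ≤ Q := by omega
        exact_mod_cast this
      have h5 : (1 : ℝ) ≤ Q := by exact_mod_cast hQ0
      nlinarith
    calc ((Q : ℝ) ^ 2 / 2) ^ n ≤ ((Q ^ 2 + 1 - n : ℕ) : ℝ) ^ n := by
          apply pow_le_pow_left₀ (by positivity) h2
      _ ≤ ((Q ^ 2).descFactorial n : ℝ) := by exact_mod_cast h1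
  have h6 := hdesc n1 (by omega)
  have h7 := hdesc n2 (by omega)
  have h8 : (Q : ℝ) ^ (opt E) = ((Q : ℝ) ^ 2) ^ n1 * ((Q : ℝ) ^ 2) ^ n2 * ((1 : ℝ) / Q) ^ m := by
    rw [hopt]
    have : val E f0 g0 = ((2 * n1 : ℕ) : ℤ) + ((2 * n2 : ℕ) : ℤ) + (-(m : ℤ)) := by
      unfold val; push_cast; ring
    rw [this, zpow_add₀ hQR.ne', zpow_add₀ hQR.ne', zpow_natCast, zpow_natCast, zpow_neg,
      zpow_natCast, pow_mul, pow_mul, one_div, inv_pow]
  rw [h8]
  push_cast
  have h9 : ((Q : ℝ) ^ 2) ^ n1 * ((Q : ℝ) ^ 2) ^ n2 / 2 ^ (Fintype.card α + Fintype.card β) ≤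
      ((Q : ℝ) ^ 2 / 2) ^ n1 * ((Q : ℝ) ^ 2 / 2) ^ n2 := by
    rw [div_pow, div_pow, div_mul_div_comm, ← pow_add (2 : ℝ)]
    apply div_le_div_of_nonneg_left (by positivity) (by positivity)
    apply pow_le_pow_right₀ (by norm_num)
    omega
  have h10 : ((Q : ℝ) ^ 2 / 2) ^ n1 * ((Q : ℝ) ^ 2 / 2) ^ n2 ≤
      ((Q ^ 2).descFactorial n1 : ℝ) * ((Q ^ 2).descFactorial n2 : ℝ) :=
    mul_le_mul h6 h7 (by positivity) (by positivity)
  have h11 : (0 : ℝ) ≤ ((1 : ℝ) / Q) ^ m := by positivity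
  calc ((Q : ℝ) ^ 2) ^ n1 * ((Q : ℝ) ^ 2) ^ n2 * ((1 : ℝ) / Q) ^ m /
        2 ^ (Fintype.card α + Fintype.card β)
      = (((Q : ℝ) ^ 2) ^ n1 * ((Q : ℝ) ^ 2) ^ n2 / 2 ^ (Fintype.card α + Fintype.card β)) *
        ((1 : ℝ) / Q) ^ m := by ring
    _ ≤ (((Q ^ 2).descFactorial n1 : ℝ) * ((Q ^ 2).descFactorial n2 : ℝ)) *
        ((1 : ℝ) / Q) ^ m := mul_le_mul_of_nonneg_right (h9.trans h10) h11

/-- the graph of `g` has about the expected number of copies of `E` -/
def Good (Q : ℕ) (E : α → β → Prop) (g : Fin (Q ^ 2) × Fin (Q ^ 2) → Fin Q) : Prop :=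
  (Q : ℝ) ^ (opt E) / 2 ^ (Fintype.card α + Fintype.card β + 1) ≤ (homCount E (rel Q g) : ℝ) ∧
  (homCount E (rel Q g) : ℝ) ≤ 2 * (((Fintype.card α).factorial : ℝ) *
    ((Fintype.card β).factorial : ℝ)) * (Q : ℝ) ^ (opt E)

open Classical in
theorem bad_count (E : α → β → Prop) : ∃ K : ℝ, 0 ≤ K ∧ ∀ Q : ℕ,
    2 * (Fintype.card α + Fintype.card β) + 1 ≤ Q →
    ((univ.filter (fun g : Fin (Q ^ 2) × Fin (Q ^ 2) → Fin Q => ¬ Good Q E g)).card : ℝ) ≤
      K / Q * (Q : ℝ) ^ (Q ^ 2 * Q ^ 2) := by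
  refine ⟨4 * 4 ^ (Fintype.card α + Fintype.card β) * (((2 * Fintype.card α).factorial : ℝ) *
    ((2 * Fintype.card β).factorial : ℝ)), by positivity, ?_⟩
  intro Q hQ
  have hQ0 : 0 < Q := by omega
  have hQR : (0 : ℝ) < Q := by exact_mod_cast hQ0
  have hQ1 : (1 : ℝ) ≤ Q := by exact_mod_cast hQ0
  have hlo := le_mu Q E hQ
  have hhi := mu_le Q hQ0 E
  have hvar := variance_le Q hQ0 E
  set μ := mu Q E with hμ
  set C := (((2 * Fintype.card α).factorial : ℝ) * ((2 * Fintype.card β).factorial : ℝ)) with hC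
  set n := Fintype.card α + Fintype.card β with hn
  have hopt0 : (0 : ℝ) < (Q : ℝ) ^ (opt E) := zpow_pos hQR _
  have hμ0 : 0 < μ := lt_of_lt_of_le (by positivity) hlo
  set S := univ.filter (fun g : Fin (Q ^ 2) × Fin (Q ^ 2) → Fin Q => ¬ Good Q E g) with hS
  have hdev : ∀ g ∈ S, (μ / 2) ^ 2 ≤ ((homCount E (rel Q g) : ℝ) - μ) ^ 2 := by
    intro g hg
    have hbad := (Finset.mem_filter.mp hg).2
    unfold Good at hbad
    rw [not_and_or, not_le, not_le] at hbad
    rcases hbad with h | h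
    · have h1 : (homCount E (rel Q g) : ℝ) < μ / 2 := by
        refine h.trans_le ?_
        rw [pow_succ, ← div_div]
        linarith
      have h2 : μ / 2 ≤ μ - (homCount E (rel Q g) : ℝ) := by linarith
      have h3 : (μ / 2) ^ 2 ≤ (μ - (homCount E (rel Q g) : ℝ)) ^ 2 :=
        pow_le_pow_left₀ (by positivity) h2 2
      nlinarith
    · have h1 : 2 * μ < (homCount E (rel Q g) : ℝ) := by
        refine lt_of_le_of_lt ?_ h
        nlinarith
      have h2 : μ / 2 ≤ (homCount E (rel Q g) : ℝ) - μ := by linarith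
      exact pow_le_pow_left₀ (by positivity) h2 2
  have h1 : (S.card : ℝ) * (μ / 2) ^ 2 ≤
      (Q : ℝ) ^ (Q ^ 2 * Q ^ 2) * ((Q : ℝ) ^ (2 * opt E - 3) * C) := by
    refine le_trans ?_ hvar
    rw [← nsmul_eq_mul, ← Finset.sum_const]
    refine (Finset.sum_le_sum hdev).trans ?_
    apply Finset.sum_le_sum_of_subset_of_nonneg (Finset.subset_univ _)
    intro g _ _
    positivity
  have h2 : ((Q : ℝ) ^ (opt E) / 2 ^ n) ^ 2 ≤ μ ^ 2 := pow_le_pow_left₀ (by positivity) hlo 2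
  have h3 : (Q : ℝ) ^ (2 * opt E - 3) ≤ ((Q : ℝ) ^ (opt E)) ^ 2 / Q := by
    rw [zpow_sub₀ hQR.ne', two_mul, zpow_add₀ hQR.ne', ← sq]
    apply div_le_div_of_nonneg_left (by positivity) hQR
    calc (Q : ℝ) = (Q : ℝ) ^ (1 : ℤ) := by simp
      _ ≤ (Q : ℝ) ^ (3 : ℤ) := zpow_le_zpow_right₀ hQ1 (by norm_num)
  have hM : (0 : ℝ) < (Q : ℝ) ^ (Q ^ 2 * Q ^ 2) := by positivity
  have hC0 : 0 ≤ C := by positivity
  have h4 : (S.card : ℝ) * (μ / 2) ^ 2 ≤
      ((4 * 4 ^ n * C) / Q * (Q : ℝ) ^ (Q ^ 2 * Q ^ 2)) * (μ / 2) ^ 2 := by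
    refine h1.trans ?_
    have h5 : (Q : ℝ) ^ (2 * opt E - 3) * C ≤ (4 * 4 ^ n * C) / Q * (μ / 2) ^ 2 := by
      have h6 : ((Q : ℝ) ^ (opt E)) ^ 2 ≤ 4 ^ n * μ ^ 2 := by
        have h7 : ((Q : ℝ) ^ (opt E) / 2 ^ n) ^ 2 = ((Q : ℝ) ^ (opt E)) ^ 2 / 4 ^ n := by
          rw [div_pow, ← pow_mul, mul_comm n 2, pow_mul]; norm_num
        rw [h7, div_le_iff₀ (by positivity)] at h2
        linarith
      calc (Q : ℝ) ^ (2 * opt E - 3) * C ≤ (((Q : ℝ) ^ (opt E)) ^ 2 / Q) * C :=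
            mul_le_mul_of_nonneg_right h3 hC0
        _ ≤ ((4 ^ n * μ ^ 2) / Q) * C := by
            apply mul_le_mul_of_nonneg_right _ hC0
            apply div_le_div_of_nonneg_right h6 hQR.le
        _ = (4 * 4 ^ n * C) / Q * (μ / 2) ^ 2 := by ring
    calc (Q : ℝ) ^ (Q ^ 2 * Q ^ 2) * ((Q : ℝ) ^ (2 * opt E - 3) * C)
        ≤ (Q : ℝ) ^ (Q ^ 2 * Q ^ 2) * ((4 * 4 ^ n * C) / Q * (μ / 2) ^ 2) :=
          mul_le_mul_of_nonneg_left h5 hM.le
      _ = _ := by ring
  exact le_of_mul_le_mul_right h4 (by positivity)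

end prob

end Pool.Agent.H140.LL
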