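import Mathlib
import Pool.Agent.H140.LL.Basic

set_option autoImplicit false
set_option linter.unusedSectionVars false

namespace Pool.Agent.H140.LL

open Finset

section lower

variable {α β : Type*} [Fintype α] [Fintype β]

/-- lower bound for `val` by the degrees of the images in the first class -/
theorem val_ge {γ δ : Type*} [DecidableEq γ] (E : α → β → Prop) (f : α → γ) (g : β → δ) (w : γ → ℕ)
    (hw : ∀ x, {d | (f x, d) ∈ imE E f g}.ncard ≤ w (f x)) :
    2 * ((Set.range g).ncard : ℤ) + ∑ c ∈ univ.image f, (2 - (w c : ℤ)) ≤ val E f g := by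
  classical
  have h1 : ((imE E f g).ncard : ℤ) ≤ ∑ c ∈ univ.image f, (w c : ℤ) := by
    have hsub : (imE_finite E f g).toFinset ⊆ (univ.image f).biUnion (fun c =>
        ((imE_finite E f g).toFinset.filter (fun q => q.1 = c))) := by
      intro q hq
      rw [Finset.mem_biUnion]
      refine ⟨q.1, ?_, Finset.mem_filter.mpr ⟨hq, rfl⟩⟩
      rw [Set.Finite.mem_toFinset] at hq
      obtain ⟨x, y, -, hx, -⟩ := hq
      exact Finset.mem_image.mpr ⟨x, mem_univ _, hx⟩
    have h2 : (imE E f g).ncard = (imE_finite E f g).toFinset.card :=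
      Set.ncard_eq_toFinset_card _ _
    rw [h2]
    have h3 := (Finset.card_le_card hsub).trans Finset.card_biUnion_le
    have h4 : ∀ c ∈ univ.image f, ((imE_finite E f g).toFinset.filter (fun q => q.1 = c)).card ≤
        w c := by
      intro c hc
      obtain ⟨x, -, rfl⟩ := Finset.mem_image.mp hc
      refine le_trans ?_ (hw x)
      have hfin : {d | (f x, d) ∈ imE E f g}.Finite :=
        ((imE_finite E f g).image Prod.snd).subset (fun d hd => ⟨(f x, d), hd, rfl⟩)
      rw [Set.ncard_eq_toFinset_card _ hfin]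
      apply Finset.card_le_card_of_injOn Prod.snd
      · intro q hq
        have hq' := Finset.mem_filter.mp (Finset.mem_coe.mp hq)
        rw [Set.Finite.mem_toFinset] at hq'
        rw [Finset.mem_coe, Set.Finite.mem_toFinset]
        show (f x, q.2) ∈ imE E f g
        rw [← hq'.2]; exact hq'.1
      · intro q hq q' hq' h
        have h1 := (Finset.mem_filter.mp (Finset.mem_coe.mp hq)).2
        have h2 := (Finset.mem_filter.mp (Finset.mem_coe.mp hq')).2
        exact Prod.ext (h1.trans h2.symm) h
    have h5 := h3.trans (Finset.sum_le_sum h4)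
    exact_mod_cast h5
  have h2 : (Set.range f).ncard = (univ.image f).card := by
    rw [← Set.ncard_coe_finset, Finset.coe_image, Finset.coe_univ, Set.image_univ]
  unfold val
  rw [Finset.sum_sub_distrib, Finset.sum_const, h2, nsmul_eq_mul]
  linarith

open Classical in
/-- isolated vertices of the first class -/
noncomputable def isoS (E : α → β → Prop) : Finset α := univ.filter (fun x => ∀ y, ¬ E x y)

open Classical in
/-- vertices seeing only the complement of `S` -/
noncomputable def offS (E : α → β → Prop) (S : Finset β) : Finset α :=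
  univ.filter (fun x => ∀ y, E x y → y ∉ S)

open Classical in
/-- vertices seeing only `S` -/
noncomputable def onS (E : α → β → Prop) (S : Finset β) : Finset α :=
  univ.filter (fun x => ∀ y, E x y → y ∈ S)

open Classical in
/-- bichromatic vertices -/
noncomputable def biS (E : α → β → Prop) (S : Finset β) : Finset α :=
  univ.filter (fun x => (∃ y, E x y ∧ y ∈ S) ∧ ∃ y, E x y ∧ y ∉ S)

theorem count_types (E : α → β → Prop) (S : Finset β) :
    (offS E S).card + (onS E S).card + (biS E S).card = Fintype.card α + (isoS E).card := by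
  classical
  have h1 : offS E S ∩ onS E S = isoS E := by
    ext x
    simp only [offS, onS, isoS, Finset.mem_inter, Finset.mem_filter, Finset.mem_univ, true_and]
    constructor
    · rintro ⟨h1, h2⟩ y hy; exact h1 y hy (h2 y hy)
    · intro h; exact ⟨fun y hy => absurd hy (h y), fun y hy => absurd hy (h y)⟩
  have h2 : (offS E S ∪ onS E S) ∪ biS E S = univ := by
    ext x
    simp only [offS, onS, biS, Finset.mem_union, Finset.mem_filter, Finset.mem_univ, true_and,
      iff_true]
    by_cases ha : ∃ y, E x y ∧ y ∈ S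
    · by_cases hb : ∃ y, E x y ∧ y ∉ S
      · exact Or.inr ⟨ha, hb⟩
      · push Not at hb; exact Or.inl (Or.inr hb)
    · push Not at ha; exact Or.inl (Or.inl ha)
  have h3 : Disjoint (offS E S ∪ onS E S) (biS E S) := by
    rw [Finset.disjoint_left]
    intro x hx hx'
    obtain ⟨⟨y, hy, hyS⟩, ⟨y', hy', hyS'⟩⟩ := (Finset.mem_filter.mp hx').2
    rcases Finset.mem_union.mp hx with h | h
    · exact (Finset.mem_filter.mp h).2 y hy hyS
    · exact hyS' ((Finset.mem_filter.mp h).2 y' hy')
  have h4 := Finset.card_union_add_card_inter (offS E S) (onS E S)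
  have h5 := Finset.card_union_of_disjoint h3
  rw [h2, Finset.card_univ] at h5
  rw [h1] at h4
  omega

theorem opt_ge_one (E : α → β → Prop) :
    (Fintype.card α : ℤ) + ((isoS E).card : ℤ) ≤ opt E := by
  classical
  refine le_trans ?_ (val_le_opt E (id : α → α) (fun _ => () : β → Unit))
  refine le_trans ?_ (val_ge E (id : α → α) (fun _ => () : β → Unit)
    (fun x => if x ∈ isoS E then 0 else 1) ?_)
  · have h1 : (0 : ℤ) ≤ ((Set.range (fun _ => () : β → Unit)).ncard : ℤ) := by positivity
    have h2 : ∑ c ∈ univ.image (id : α → α), (2 - ((if c ∈ isoS E then 0 else 1 : ℕ) : ℤ)) =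
        (Fintype.card α : ℤ) + ((isoS E).card : ℤ) := by
      rw [Finset.image_id]
      have h3 : ∀ c : α, (2 - ((if c ∈ isoS E then 0 else 1 : ℕ) : ℤ)) =
          1 + (if c ∈ isoS E then 1 else 0) := by
        intro c; split_ifs <;> simp
      simp_rw [h3]
      rw [Finset.sum_add_distrib, Finset.sum_const, Finset.card_univ, ← Finset.sum_filter,
        Finset.sum_const, Finset.filter_mem_eq_inter, Finset.univ_inter]
      simp
    rw [h2]
    linarith
  · intro x
    change {d | (x, d) ∈ imE E (id : α → α) (fun _ => () : β → Unit)}.ncard ≤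
      if x ∈ isoS E then 0 else 1
    by_cases hx : x ∈ isoS E
    · rw [if_pos hx]
      have : {d | (x, d) ∈ imE E (id : α → α) (fun _ => () : β → Unit)} = ∅ := by
        ext d
        simp only [Set.mem_ofPred_eq, Set.mem_empty_iff_false, iff_false]
        rintro ⟨x', y, hxy, hx', -⟩
        simp only [id] at hx'
        subst hx'
        exact (Finset.mem_filter.mp hx).2 y hxy
      rw [this, Set.ncard_empty]
    · rw [if_neg hx]
      have h1 := Set.ncard_le_ncard (Set.subset_univ
        {d | (x, d) ∈ imE E (id : α → α) (fun _ => () : β → Unit)}) Set.finite_univ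
      rw [Set.ncard_univ] at h1
      simpa using h1

/-- relation merging second-class vertices of one colour with a common neighbour -/
def r2 (E : α → β → Prop) (S : Finset β) (y y' : β) : Prop :=
  (y ∈ S ↔ y' ∈ S) ∧ ∃ x, E x y ∧ E x y'

/-- relation merging second-class vertices with a common neighbour outside `D` -/
def r3 (E : α → β → Prop) (D : Finset α) (y y' : β) : Prop :=
  ∃ x, x ∉ D ∧ E x y ∧ E x y'

theorem range_mk {r : β → β → Prop} : (Set.range (Quot.mk r)).ncard = Nat.card (Quot r) := by
  have : Set.range (Quot.mk r) = Set.univ := by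
    ext q; simp only [Set.mem_range, Set.mem_univ, iff_true]; exact Quot.exists_rep q
  rw [this, Set.ncard_univ]

theorem opt_ge_three (E : α → β → Prop) (S : Finset β) :
    ((Nat.card (Quot (r3 E (biS E S))) : ℤ) + ((offS E S).card : ℤ) + ((onS E S).card : ℤ)) ≤
      opt E := by
  classical
  set D := biS E S with hD
  let f : α → Option α := fun x => if x ∈ D then none else some x
  have hfD : ∀ x, x ∈ D → f x = none := fun x hx => by simp only [f, if_pos hx]
  have hfnD : ∀ x, x ∉ D → f x = some x := fun x hx => by simp only [f, if_neg hx]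
  let w : Option α → ℕ := fun o => match o with
      | none => Nat.card (Quot (r3 E D))
      | some x => if x ∈ isoS E then 0 else 1
  have hw0 : w none = Nat.card (Quot (r3 E D)) := rfl
  have hw1 : ∀ x, w (some x) = if x ∈ isoS E then 0 else 1 := fun x => rfl
  refine le_trans ?_ (val_le_opt E f (Quot.mk (r3 E D)))
  refine le_trans ?_ (val_ge E f (Quot.mk (r3 E D)) w ?_)
  · rw [range_mk]
    set k := Nat.card (Quot (r3 E D)) with hk
    have himg : univ.image f = (univ.filter (fun x => x ∉ D)).image some ∪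
        (if D.Nonempty then {none} else ∅) := by
      ext o
      rw [Finset.mem_image, Finset.mem_union, Finset.mem_image]
      constructor
      · rintro ⟨x, -, rfl⟩
        by_cases hx : x ∈ D
        · right; rw [hfD x hx, if_pos ⟨x, hx⟩]; simp
        · left; exact ⟨x, Finset.mem_filter.mpr ⟨mem_univ _, hx⟩, (hfnD x hx).symm⟩
      · rintro (⟨x, hx, rfl⟩ | h)
        · exact ⟨x, mem_univ _, hfnD x (Finset.mem_filter.mp hx).2⟩
        · by_cases hne : D.Nonempty
          · rw [if_pos hne, Finset.mem_singleton] at h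
            obtain ⟨x, hx⟩ := hne
            exact ⟨x, mem_univ _, by rw [hfD x hx, h]⟩
          · rw [if_neg hne] at h; simp at h
    have hdisj : Disjoint ((univ.filter (fun x => x ∉ D)).image (some : α → Option α))
        (if D.Nonempty then {none} else ∅) := by
      rw [Finset.disjoint_left]
      intro o ho ho'
      obtain ⟨x, -, rfl⟩ := Finset.mem_image.mp ho
      split_ifs at ho' <;> simp at ho'
    rw [himg, Finset.sum_union hdisj, Finset.sum_image (fun _ _ _ _ h => Option.some_injective _ h)]
    have h1 : ∑ x ∈ univ.filter (fun x => x ∉ D), (2 - ((if x ∈ isoS E then 0 else 1 : ℕ) : ℤ)) =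
        ((offS E S).card : ℤ) + ((onS E S).card : ℤ) := by
      have h3 : ∀ c : α, (2 - ((if c ∈ isoS E then 0 else 1 : ℕ) : ℤ)) =
          1 + (if c ∈ isoS E then 1 else 0) := by
        intro c; split_ifs <;> simp
      simp_rw [h3]
      rw [Finset.sum_add_distrib, Finset.sum_const, ← Finset.sum_filter, Finset.sum_const]
      have h4 : (univ.filter (fun x => x ∉ D)).card + D.card = Fintype.card α := by
        have := Finset.card_filter_add_card_filter_not (s := (univ : Finset α)) (p := fun x => x ∈ D)
        rw [Finset.filter_mem_eq_inter, Finset.univ_inter, Finset.card_univ] at this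
        omega
      have h5 : ((univ.filter (fun x => x ∉ D)).filter (fun x => x ∈ isoS E)) = isoS E := by
        ext x
        simp only [Finset.mem_filter, Finset.mem_univ, true_and, and_iff_right_iff_imp]
        intro hx hxD
        obtain ⟨⟨y, hy, -⟩, -⟩ := (Finset.mem_filter.mp hxD).2
        exact (Finset.mem_filter.mp hx).2 y hy
      rw [h5]
      have h6 := count_types E S
      rw [← hD] at h6
      simp only [nsmul_eq_mul, mul_one]
      have h4' : ((univ.filter (fun x => x ∉ D)).card : ℤ) + (D.card : ℤ) = (Fintype.card α : ℤ) := by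
        exact_mod_cast h4
      have h6' : ((offS E S).card : ℤ) + ((onS E S).card : ℤ) + (D.card : ℤ) =
        (Fintype.card α : ℤ) + ((isoS E).card : ℤ) := by exact_mod_cast h6
      linarith
    have h2 : -(k : ℤ) ≤ ∑ o ∈ (if D.Nonempty then ({none} : Finset (Option α)) else ∅),
        (2 - (w o : ℤ)) := by
      split_ifs
      · rw [Finset.sum_singleton, hw0]; linarith
      · simp
    simp_rw [hw1]
    rw [h1]
    linarith
  · intro x
    by_cases hx : x ∈ D
    · rw [hfD x hx, hw0]
      have hfin : (Set.univ : Set (Quot (r3 E D))).Finite := Set.toFinite _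
      have h1 := Set.ncard_le_ncard (Set.subset_univ
        {d | ((none : Option α), d) ∈ imE E f (Quot.mk (r3 E D))}) hfin
      rwa [Set.ncard_univ] at h1
    · rw [hfnD x hx, hw1]
      by_cases hiso : x ∈ isoS E
      · rw [if_pos hiso]
        have : {d | (some x, d) ∈ imE E f (Quot.mk (r3 E D))} = ∅ := by
          ext d
          simp only [Set.mem_ofPred_eq, Set.mem_empty_iff_false, iff_false]
          rintro ⟨x', y, hxy, hx', -⟩
          simp only at hx'
          by_cases hx'D : x' ∈ D
          · rw [hfD x' hx'D] at hx'; cases hx'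
          · rw [hfnD x' hx'D] at hx'
            have := Option.some_injective _ hx'
            subst this
            exact (Finset.mem_filter.mp hiso).2 y hxy
        rw [this, Set.ncard_empty]
      · rw [if_neg hiso]
        rw [Set.ncard_le_one (Set.toFinite _)]
        rintro d ⟨x', y, hxy, hx', hd⟩ d' ⟨x'', y', hxy', hx'', hd'⟩
        simp only at hx' hx'' hd hd'
        have e1 : x' = x := by
          by_cases hx'D : x' ∈ D
          · rw [hfD x' hx'D] at hx'; cases hx'
          · rw [hfnD x' hx'D] at hx'; exact Option.some_injective _ hx'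
        have e2 : x'' = x := by
          by_cases hx'D : x'' ∈ D
          · rw [hfD x'' hx'D] at hx''; cases hx''
          · rw [hfnD x'' hx'D] at hx''; exact Option.some_injective _ hx''
        subst e1
        rw [e2] at hxy'
        rw [← hd, ← hd']
        exact Quot.sound ⟨x', hx, hxy, hxy'⟩

theorem opt_ge_two (E : α → β → Prop) (S : Finset β) :
    (2 * (Nat.card (Quot (r2 E S)) : ℤ) + ((offS E S).card : ℤ) + ((onS E S).card : ℤ)) ≤
      opt E := by
  classical
  set D := biS E S with hD
  have hch1 : ∀ x, x ∈ D → ∃ y, E x y ∧ y ∈ S := fun x hx => (Finset.mem_filter.mp hx).2.1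
  have hch2 : ∀ x, x ∈ D → ∃ y, E x y ∧ y ∉ S := fun x hx => (Finset.mem_filter.mp hx).2.2
  choose n1 hn1 hn1S using hch1
  choose n2 hn2 hn2S using hch2
  let f : α → α ⊕ (Quot (r2 E S) × Quot (r2 E S)) := fun x =>
    if hx : x ∈ D then Sum.inr (Quot.mk _ (n1 x hx), Quot.mk _ (n2 x hx)) else Sum.inl x
  have hfD : ∀ x (hx : x ∈ D), f x = Sum.inr (Quot.mk _ (n1 x hx), Quot.mk _ (n2 x hx)) :=
    fun x hx => by simp only [f, dif_pos hx]
  have hfnD : ∀ x, x ∉ D → f x = Sum.inl x := fun x hx => by simp only [f, dif_neg hx]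
  let w : α ⊕ (Quot (r2 E S) × Quot (r2 E S)) → ℕ := fun o => match o with
      | Sum.inr _ => 2
      | Sum.inl x => if x ∈ isoS E then 0 else 1
  have hw0 : ∀ c, w (Sum.inr c) = 2 := fun c => rfl
  have hw1 : ∀ x, w (Sum.inl x) = if x ∈ isoS E then 0 else 1 := fun x => rfl
  refine le_trans ?_ (val_le_opt E f (Quot.mk (r2 E S)))
  refine le_trans ?_ (val_ge E f (Quot.mk (r2 E S)) w ?_)
  · rw [range_mk]
    have himg : univ.image f = (univ.filter (fun x => x ∉ D)).image Sum.inl ∪
        D.image f := by
      ext o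
      rw [Finset.mem_image, Finset.mem_union, Finset.mem_image, Finset.mem_image]
      constructor
      · rintro ⟨x, -, rfl⟩
        by_cases hx : x ∈ D
        · right; exact ⟨x, hx, rfl⟩
        · left; exact ⟨x, Finset.mem_filter.mpr ⟨mem_univ _, hx⟩, (hfnD x hx).symm⟩
      · rintro (⟨x, hx, rfl⟩ | ⟨x, hx, rfl⟩)
        · exact ⟨x, mem_univ _, hfnD x (Finset.mem_filter.mp hx).2⟩
        · exact ⟨x, mem_univ _, rfl⟩
    have hdisj : Disjoint ((univ.filter (fun x => x ∉ D)).image
        (Sum.inl : α → α ⊕ (Quot (r2 E S) × Quot (r2 E S)))) (D.image f) := by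
      rw [Finset.disjoint_left]
      intro o ho ho'
      obtain ⟨x, -, rfl⟩ := Finset.mem_image.mp ho
      obtain ⟨x', hx', h⟩ := Finset.mem_image.mp ho'
      rw [hfD x' hx'] at h
      cases h
    rw [himg, Finset.sum_union hdisj, Finset.sum_image (fun _ _ _ _ h => Sum.inl_injective h)]
    have h1 : ∑ x ∈ univ.filter (fun x => x ∉ D), (2 - ((if x ∈ isoS E then 0 else 1 : ℕ) : ℤ)) =
        ((offS E S).card : ℤ) + ((onS E S).card : ℤ) := by
      have h3 : ∀ c : α, (2 - ((if c ∈ isoS E then 0 else 1 : ℕ) : ℤ)) =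
          1 + (if c ∈ isoS E then 1 else 0) := by
        intro c; split_ifs <;> simp
      simp_rw [h3]
      rw [Finset.sum_add_distrib, Finset.sum_const, ← Finset.sum_filter, Finset.sum_const]
      have h4 : (univ.filter (fun x => x ∉ D)).card + D.card = Fintype.card α := by
        have := Finset.card_filter_add_card_filter_not (s := (univ : Finset α)) (p := fun x => x ∈ D)
        rw [Finset.filter_mem_eq_inter, Finset.univ_inter, Finset.card_univ] at this
        omega
      have h5 : ((univ.filter (fun x => x ∉ D)).filter (fun x => x ∈ isoS E)) = isoS E := by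
        ext x
        simp only [Finset.mem_filter, Finset.mem_univ, true_and, and_iff_right_iff_imp]
        intro hx hxD
        obtain ⟨⟨y, hy, -⟩, -⟩ := (Finset.mem_filter.mp hxD).2
        exact (Finset.mem_filter.mp hx).2 y hy
      rw [h5]
      have h6 := count_types E S
      rw [← hD] at h6
      simp only [nsmul_eq_mul, mul_one]
      have h4' : ((univ.filter (fun x => x ∉ D)).card : ℤ) + (D.card : ℤ) = (Fintype.card α : ℤ) := by
        exact_mod_cast h4
      have h6' : ((offS E S).card : ℤ) + ((onS E S).card : ℤ) + (D.card : ℤ) =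
        (Fintype.card α : ℤ) + ((isoS E).card : ℤ) := by exact_mod_cast h6
      linarith
    have h2 : ∑ o ∈ D.image f, (2 - (w o : ℤ)) = 0 := by
      apply Finset.sum_eq_zero
      intro o ho
      obtain ⟨x, hx, rfl⟩ := Finset.mem_image.mp ho
      have hwx : w (f x) = 2 := by rw [hfD x hx]
      rw [hwx]
      simp
    simp_rw [hw1]
    rw [h1, h2]
    linarith
  · intro x
    by_cases hx : x ∈ D
    · have hwx : w (f x) = 2 := by rw [hfD x hx]
      rw [hwx, hfD x hx]
      have hsub : {d | ((Sum.inr (Quot.mk _ (n1 x hx), Quot.mk _ (n2 x hx)) :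
          α ⊕ (Quot (r2 E S) × Quot (r2 E S))), d) ∈ imE E f (Quot.mk (r2 E S))} ⊆
          {Quot.mk _ (n1 x hx), Quot.mk _ (n2 x hx)} := by
        rintro d ⟨x', y, hxy, hx', hd⟩
        simp only at hx' hd
        by_cases hx'D : x' ∈ D
        · rw [hfD x' hx'D] at hx'
          have h1 := Sum.inr_injective hx'
          have h2 := congrArg Prod.fst h1
          have h3 := congrArg Prod.snd h1
          simp only at h2 h3
          rw [← h2, ← h3, ← hd]
          by_cases hy : y ∈ S
          · left
            exact Quot.sound ⟨by simp [hy, hn1S x' hx'D], x', hxy, hn1 x' hx'D⟩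
          · right
            exact Quot.sound ⟨by simp [hy, hn2S x' hx'D], x', hxy, hn2 x' hx'D⟩
        · rw [hfnD x' hx'D] at hx'; cases hx'
      exact (Set.ncard_le_ncard hsub (Set.toFinite _)).trans ((Set.ncard_insert_le _ _).trans (by rw [Set.ncard_singleton]))
    · rw [hfnD x hx, hw1]
      by_cases hiso : x ∈ isoS E
      · rw [if_pos hiso]
        have : {d | ((Sum.inl x : α ⊕ (Quot (r2 E S) × Quot (r2 E S))), d) ∈
            imE E f (Quot.mk (r2 E S))} = ∅ := by
          ext d
          simp only [Set.mem_ofPred_eq, Set.mem_empty_iff_false, iff_false]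
          rintro ⟨x', y, hxy, hx', -⟩
          simp only at hx'
          by_cases hx'D : x' ∈ D
          · rw [hfD x' hx'D] at hx'; cases hx'
          · rw [hfnD x' hx'D] at hx'
            have := Sum.inl_injective hx'
            subst this
            exact (Finset.mem_filter.mp hiso).2 y hxy
        rw [this, Set.ncard_empty]
      · rw [if_neg hiso]
        rw [Set.ncard_le_one (Set.toFinite _)]
        rintro d ⟨x', y, hxy, hx', hd⟩ d' ⟨x'', y', hxy', hx'', hd'⟩
        simp only at hx' hx'' hd hd'
        have e1 : x' = x := by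
          by_cases hx'D : x' ∈ D
          · rw [hfD x' hx'D] at hx'; cases hx'
          · rw [hfnD x' hx'D] at hx'; exact Sum.inl_injective hx'
        have e2 : x'' = x := by
          by_cases hx'D : x'' ∈ D
          · rw [hfD x'' hx'D] at hx''; cases hx''
          · rw [hfnD x'' hx'D] at hx''; exact Sum.inl_injective hx''
        subst e1
        rw [e2] at hxy'
        rw [← hd, ← hd']
        apply Quot.sound
        refine ⟨?_, x', hxy, hxy'⟩
        constructor
        · intro hy
          by_contra hy'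
          exact hx (Finset.mem_filter.mpr ⟨mem_univ _, ⟨y, hxy, hy⟩, ⟨y', hxy', hy'⟩⟩)
        · intro hy'
          by_contra hy
          exact hx (Finset.mem_filter.mpr ⟨mem_univ _, ⟨y', hxy', hy'⟩, ⟨y, hxy, hy⟩⟩)

end lower

section upper

variable {α β : Type*} [Fintype α] [Fintype β]

/-- The rook incidence relation on `(Fin 16 × Fin 16) × Bool` and `Fin 16 ⊕ Fin 16`; points with
second component `false` are isolated. -/
def rook (p : (Fin 16 × Fin 16) × Bool) (l : Fin 16 ⊕ Fin 16) : Prop :=
  p.2 = true ∧ match l with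
    | Sum.inl r => p.1.1 = r
    | Sum.inr c => p.1.2 = c

open Classical in
theorem rook_count (E : α → β → Prop) :
    homCount E rook ≤ ∑ S : Finset β, 16 ^ (Nat.card (Quot (r2 E S))) *
      (16 ^ (offS E S).card * (16 ^ (onS E S).card * 2 ^ (isoS E).card)) := by
  classical
  -- parametrisation of the homomorphisms
  let Par : Type _ := Σ S : Finset β, (Quot (r2 E S) → Fin 16) ×
    (({x // x ∈ offS E S} → Fin 16) × (({x // x ∈ onS E S} → Fin 16) ×
      ({x // x ∈ isoS E} → Bool)))
  have hcard : Nat.card Par = ∑ S : Finset β, 16 ^ (Nat.card (Quot (r2 E S))) *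
      (16 ^ (offS E S).card * (16 ^ (onS E S).card * 2 ^ (isoS E).card)) := by
    have : ∀ S : Finset β, Fintype (Quot (r2 E S)) := fun S => Fintype.ofFinite _
    rw [Nat.card_sigma]
    apply Finset.sum_congr rfl
    intro S _
    rw [Nat.card_prod, Nat.card_prod, Nat.card_prod, Nat.card_fun, Nat.card_fun, Nat.card_fun,
      Nat.card_fun]
    simp
  rw [← hcard]
  have hoff : ∀ (S : Finset β) (x : α), x ∉ offS E S → ∃ y, E x y ∧ y ∈ S := by
    intro S x hx
    by_contra h
    push Not at h
    exact hx (Finset.mem_filter.mpr ⟨mem_univ _, h⟩)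
  have hon : ∀ (S : Finset β) (x : α), x ∉ onS E S → ∃ y, E x y ∧ y ∉ S := by
    intro S x hx
    by_contra h
    push Not at h
    exact hx (Finset.mem_filter.mpr ⟨mem_univ _, h⟩)
  choose n1 hn1 hn1S using hoff
  choose n2 hn2 hn2S using hon
  let Ψ : Par → (α → (Fin 16 × Fin 16) × Bool) × (β → Fin 16 ⊕ Fin 16) := fun q =>
    (fun x => ((if hx : x ∈ offS E q.1 then q.2.2.1 ⟨x, hx⟩ else q.2.1 (Quot.mk _ (n1 q.1 x hx)),
        if hx : x ∈ onS E q.1 then q.2.2.2.1 ⟨x, hx⟩ else q.2.1 (Quot.mk _ (n2 q.1 x hx))),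
        if hx : x ∈ isoS E then q.2.2.2.2 ⟨x, hx⟩ else true),
      fun y => if y ∈ q.1 then Sum.inl (q.2.1 (Quot.mk _ y)) else Sum.inr (q.2.1 (Quot.mk _ y)))
  have hfinPar : Finite Par := by
    have : ∀ S : Finset β, Finite (Quot (r2 E S)) := fun S => inferInstance
    infer_instance
  have hsub : {p : (α → (Fin 16 × Fin 16) × Bool) × (β → Fin 16 ⊕ Fin 16) |
      ∀ x y, E x y → rook (p.1 x) (p.2 y)} ⊆ Set.range Ψ := by
    intro p hp
    let S : Finset β := univ.filter (fun y => ∃ r, p.2 y = Sum.inl r)
    let ind : Fin 16 ⊕ Fin 16 → Fin 16 := Sum.elim id id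
    have hS : ∀ y, y ∈ S → p.2 y = Sum.inl (ind (p.2 y)) := by
      intro y hy
      obtain ⟨r, hr⟩ := (Finset.mem_filter.mp hy).2
      rw [hr]; rfl
    have hnS : ∀ y, y ∉ S → p.2 y = Sum.inr (ind (p.2 y)) := by
      intro y hy
      cases h : p.2 y with
      | inl r => exact absurd (Finset.mem_filter.mpr ⟨mem_univ _, ⟨r, h⟩⟩) hy
      | inr c => rfl
    have hrow : ∀ x y, E x y → y ∈ S → (p.1 x).1.1 = ind (p.2 y) := by
      intro x y hxy hy
      have h := hp x y hxy
      rw [hS y hy] at h
      exact h.2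
    have hcol : ∀ x y, E x y → y ∉ S → (p.1 x).1.2 = ind (p.2 y) := by
      intro x y hxy hy
      have h := hp x y hxy
      rw [hnS y hy] at h
      exact h.2
    let q : Quot (r2 E S) → Fin 16 := Quot.lift (fun y => ind (p.2 y)) (by
      rintro y y' ⟨hyy, x, hxy, hxy'⟩
      by_cases hy : y ∈ S
      · rw [← hrow x y hxy hy, ← hrow x y' hxy' (hyy.mp hy)]
      · rw [← hcol x y hxy hy, ← hcol x y' hxy' (fun h => hy (hyy.mpr h))])
    refine ⟨⟨S, q, fun x => (p.1 x.1).1.1, fun x => (p.1 x.1).1.2, fun x => (p.1 x.1).2⟩, ?_⟩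
    apply Prod.ext
    · funext x
      apply Prod.ext
      · apply Prod.ext
        · simp only [Ψ]
          split_ifs with hx
          · rfl
          · exact (hrow x _ (hn1 S x hx) (hn1S S x hx)).symm
        · simp only [Ψ]
          split_ifs with hx
          · rfl
          · exact (hcol x _ (hn2 S x hx) (hn2S S x hx)).symm
      · simp only [Ψ]
        split_ifs with hx
        · rfl
        · have : ∃ y, E x y := by
            by_contra h
            push Not at h
            exact hx (Finset.mem_filter.mpr ⟨mem_univ _, h⟩)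
          obtain ⟨y, hy⟩ := this
          exact (hp x y hy).1.symm
    · funext y
      simp only [Ψ]
      split_ifs with hy
      · exact (hS y hy).symm
      · exact (hnS y hy).symm
  have h1 := Set.ncard_le_ncard hsub (Set.finite_range Ψ)
  have h2 := range_ncard_le Ψ
  exact h1.trans h2

open Classical in
theorem pow_bound (E : α → β → Prop) (S : Finset β) :
    (16 : ℝ) ^ (Nat.card (Quot (r2 E S))) * (16 ^ (offS E S).card * 16 ^ (onS E S).card) ≤
      (16 : ℝ) ^ (opt E) * ((1 / 2 : ℝ) ^ (Nat.card (Quot (r3 E (biS E S)))) *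
        (1 / 2 : ℝ) ^ (biS E S).card) := by
  have h1 := opt_ge_one E
  have h2 := opt_ge_two E S
  have h3 := opt_ge_three E S
  have h4 := count_types E S
  have h4' : ((offS E S).card : ℤ) + ((onS E S).card : ℤ) + ((biS E S).card : ℤ) =
        (Fintype.card α : ℤ) + ((isoS E).card : ℤ) := by exact_mod_cast h4
  set κ := Nat.card (Quot (r2 E S))
  set k := Nat.card (Quot (r3 E (biS E S)))
  set d := (biS E S).card
  set a := (offS E S).card
  set b := (onS E S).card
  have e1 : (16 : ℝ) ^ κ * (16 ^ a * 16 ^ b) = (2 : ℝ) ^ (4 * ((κ : ℤ) + a + b)) := by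
    rw [zpow_mul, zpow_add₀ (by norm_num), zpow_add₀ (by norm_num), zpow_natCast, zpow_natCast,
      zpow_natCast]
    norm_num
    ring
  have e2 : (16 : ℝ) ^ (opt E) * ((1 / 2 : ℝ) ^ k * (1 / 2 : ℝ) ^ d) =
      (2 : ℝ) ^ (4 * opt E - k - d) := by
    rw [zpow_sub₀ (by norm_num), zpow_sub₀ (by norm_num), zpow_mul, zpow_natCast, zpow_natCast,
      one_div, inv_pow, inv_pow]
    norm_num
    field_simp
  rw [e1, e2]
  apply zpow_le_zpow_right₀ (by norm_num)
  linarith

open Classical in
/-- number of colour classes with a given set of bichromatic vertices -/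
theorem fiber_count (E : α → β → Prop) (D : Finset α) :
    ((univ.filter (fun S : Finset β => biS E S = D)).card : ℝ) ≤
      2 ^ (Nat.card (Quot (r3 E D))) := by
  have h1 : (univ.filter (fun S : Finset β => biS E S = D)).card ≤
      Nat.card (Quot (r3 E D) → Bool) := by
    have : Fintype (Quot (r3 E D)) := Fintype.ofFinite _
    rw [Nat.card_eq_fintype_card, ← Finset.card_univ]
    apply Finset.card_le_card_of_surjOn (fun c : Quot (r3 E D) → Bool =>
      (univ.filter (fun y => c (Quot.mk _ y) = true) : Finset β))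
    intro S hS
    have hS' := (Finset.mem_filter.mp (Finset.mem_coe.mp hS)).2
    let c : Quot (r3 E D) → Bool := Quot.lift (fun y => decide (y ∈ S)) (by
      rintro y y' ⟨x, hx, hxy, hxy'⟩
      rw [← hS'] at hx
      have : (y ∈ S ↔ y' ∈ S) := by
        constructor
        · intro hy
          by_contra hy'
          exact hx (Finset.mem_filter.mpr ⟨mem_univ _, ⟨y, hxy, hy⟩, ⟨y', hxy', hy'⟩⟩)
        · intro hy'
          by_contra hy
          exact hx (Finset.mem_filter.mpr ⟨mem_univ _, ⟨y', hxy', hy'⟩, ⟨y, hxy, hy⟩⟩)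
      simp only [this])
    refine ⟨c, by simp, ?_⟩
    ext y
    simp [c]
  have h2 : Nat.card (Quot (r3 E D) → Bool) = 2 ^ (Nat.card (Quot (r3 E D))) := by
    rw [Nat.card_fun]; simp
  rw [h2] at h1
  exact_mod_cast h1

open Classical in
/-- The rook graph is harmless at scale 24. -/
theorem harmless (E : α → β → Prop) : (homCount E rook : ℝ) ≤ (24 : ℝ) ^ (opt E) := by
  set I := (isoS E).card with hI
  have h0 : (homCount E rook : ℝ) ≤ ∑ S : Finset β, (16 : ℝ) ^ (Nat.card (Quot (r2 E S))) *
      (16 ^ (offS E S).card * (16 ^ (onS E S).card * 2 ^ I)) := by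
    have := rook_count E
    exact_mod_cast this
  have h1 : ∑ S : Finset β, (16 : ℝ) ^ (Nat.card (Quot (r2 E S))) *
      (16 ^ (offS E S).card * (16 ^ (onS E S).card * 2 ^ I)) ≤
      ∑ S : Finset β, (16 : ℝ) ^ (opt E) * 2 ^ I *
        ((1 / 2 : ℝ) ^ (Nat.card (Quot (r3 E (biS E S)))) * (1 / 2 : ℝ) ^ (biS E S).card) := by
    apply Finset.sum_le_sum
    intro S _
    have := mul_le_mul_of_nonneg_right (pow_bound E S) (by positivity : (0 : ℝ) ≤ 2 ^ I)
    calc (16 : ℝ) ^ (Nat.card (Quot (r2 E S))) *
      (16 ^ (offS E S).card * (16 ^ (onS E S).card * 2 ^ I)) =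
        (16 : ℝ) ^ (Nat.card (Quot (r2 E S))) * (16 ^ (offS E S).card * 16 ^ (onS E S).card) *
          2 ^ I := by ring
      _ ≤ _ := this
      _ = _ := by ring
  -- group by the bichromatic set
  have h2 : ∑ S : Finset β, ((1 / 2 : ℝ) ^ (Nat.card (Quot (r3 E (biS E S)))) *
      (1 / 2 : ℝ) ^ (biS E S).card) ≤
      ∑ D ∈ (univ \ isoS E).powerset, (1 / 2 : ℝ) ^ D.card := by
    have hmaps : ∀ S ∈ (univ : Finset (Finset β)), biS E S ∈ (univ \ isoS E).powerset := by
      intro S _
      rw [Finset.mem_powerset]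
      intro x hx
      rw [Finset.mem_sdiff]
      refine ⟨mem_univ _, ?_⟩
      intro hiso
      obtain ⟨⟨y, hy, -⟩, -⟩ := (Finset.mem_filter.mp hx).2
      exact (Finset.mem_filter.mp hiso).2 y hy
    rw [← Finset.sum_fiberwise_of_maps_to hmaps]
    apply Finset.sum_le_sum
    intro D _
    have h3 : ∑ S ∈ univ.filter (fun S : Finset β => biS E S = D),
        ((1 / 2 : ℝ) ^ (Nat.card (Quot (r3 E (biS E S)))) * (1 / 2 : ℝ) ^ (biS E S).card) =
        ∑ S ∈ univ.filter (fun S : Finset β => biS E S = D),
        ((1 / 2 : ℝ) ^ (Nat.card (Quot (r3 E D))) * (1 / 2 : ℝ) ^ D.card) := by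
      apply Finset.sum_congr rfl
      intro S hS
      rw [(Finset.mem_filter.mp hS).2]
    rw [h3, Finset.sum_const, nsmul_eq_mul, ← mul_assoc]
    have h4 := fiber_count E D
    have h5 : ((univ.filter (fun S : Finset β => biS E S = D)).card : ℝ) *
        (1 / 2 : ℝ) ^ (Nat.card (Quot (r3 E D))) ≤ 1 := by
      rw [one_div, inv_pow, ← div_eq_mul_inv, div_le_one (by positivity)]
      exact h4
    calc ((univ.filter (fun S : Finset β => biS E S = D)).card : ℝ) *
        (1 / 2 : ℝ) ^ (Nat.card (Quot (r3 E D))) * (1 / 2 : ℝ) ^ D.card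
        ≤ 1 * (1 / 2 : ℝ) ^ D.card := mul_le_mul_of_nonneg_right h5 (by positivity)
      _ = _ := one_mul _
  have h6 : ∑ D ∈ (univ \ isoS E).powerset, (1 / 2 : ℝ) ^ D.card =
      (3 / 2 : ℝ) ^ (univ \ isoS E).card := by
    have := Finset.sum_pow_mul_eq_add_pow (1 / 2 : ℝ) 1 (univ \ isoS E)
    simp only [one_pow, mul_one] at this
    rw [this]
    norm_num
  have h7 : (univ \ isoS E).card + I = Fintype.card α := by
    rw [Finset.card_sdiff_of_subset (Finset.subset_univ _), Finset.card_univ]
    have : I ≤ Fintype.card α := Finset.card_le_univ _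
    omega
  set m := (univ \ isoS E).card
  have h8 := opt_ge_one E
  have h9 : (16 : ℝ) ^ (opt E) * 2 ^ I * (3 / 2 : ℝ) ^ m ≤ (24 : ℝ) ^ (opt E) := by
    have e1 : (24 : ℝ) ^ (opt E) = (16 : ℝ) ^ (opt E) * (3 / 2 : ℝ) ^ (opt E) := by
      rw [← mul_zpow]; norm_num
    rw [e1, mul_assoc]
    apply mul_le_mul_of_nonneg_left _ (by positivity)
    have e2 : (2 : ℝ) ^ I ≤ (3 / 2 : ℝ) ^ (2 * I) := by
      rw [pow_mul]
      apply pow_le_pow_left₀ (by norm_num)
      norm_num
    calc (2 : ℝ) ^ I * (3 / 2 : ℝ) ^ m ≤ (3 / 2 : ℝ) ^ (2 * I) * (3 / 2 : ℝ) ^ m :=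
          mul_le_mul_of_nonneg_right e2 (by positivity)
      _ = (3 / 2 : ℝ) ^ ((2 * I + m : ℕ) : ℤ) := by rw [zpow_natCast, pow_add]
      _ ≤ (3 / 2 : ℝ) ^ (opt E) := by
          apply zpow_le_zpow_right₀ (by norm_num)
          have : (m : ℤ) + I = Fintype.card α := by exact_mod_cast h7
          push_cast
          linarith
  calc (homCount E rook : ℝ) ≤ _ := h0
    _ ≤ _ := h1
    _ = (16 : ℝ) ^ (opt E) * 2 ^ I * ∑ S : Finset β,
        ((1 / 2 : ℝ) ^ (Nat.card (Quot (r3 E (biS E S)))) * (1 / 2 : ℝ) ^ (biS E S).card) := by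
        rw [← Finset.mul_sum]
    _ ≤ (16 : ℝ) ^ (opt E) * 2 ^ I * (3 / 2 : ℝ) ^ m := by
        apply mul_le_mul_of_nonneg_left _ (by positivity)
        rw [← h6]; exact h2
    _ ≤ _ := h9

end upper

end Pool.Agent.H140.LL
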