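import Mathlib
import Pool.Agent.H140.LL.Harmless

set_option autoImplicit false
set_option linter.unusedSectionVars false
set_option linter.unusedSimpArgs false

namespace Pool.Agent.H140.LL

open Finset Matrix Polynomial

open Classical in
/-- 0-1 matrix of a relation -/
noncomputable def bim {γ δ : Type*} (F : γ → δ → Prop) : Matrix γ δ ℝ :=
  fun x y => if F x y then 1 else 0

/-- `det (X² - Bᵀ B)` -/
noncomputable def dpol {γ δ : Type*} [Fintype γ] [Fintype δ] [DecidableEq δ]
    (B : Matrix γ δ ℝ) : ℝ[X] :=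
  (((X : ℝ[X]) ^ 2) • (1 : Matrix δ δ ℝ[X]) - (Bᵀ * B).map C).det

theorem charpoly_bip {γ δ : Type*} [Fintype γ] [Fintype δ] [DecidableEq γ] [DecidableEq δ]
    (B : Matrix γ δ ℝ) :
    (fromBlocks (0 : Matrix γ γ ℝ) B Bᵀ (0 : Matrix δ δ ℝ)).charpoly * X ^ (Fintype.card δ) =
      X ^ (Fintype.card γ) * dpol B := by
  have h1 : charmatrix (fromBlocks (0 : Matrix γ γ ℝ) B Bᵀ (0 : Matrix δ δ ℝ)) =
      fromBlocks ((X : ℝ[X]) • (1 : Matrix γ γ ℝ[X])) (-(B.map C)) (-(Bᵀ.map C))
        ((X : ℝ[X]) • (1 : Matrix δ δ ℝ[X])) := by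
    ext i j
    rcases i with i | i <;> rcases j with j | j
    · by_cases h : i = j
      · subst h; simp [charmatrix_apply_eq]
      · rw [charmatrix_apply_ne _ _ _ (by simpa using h)]; simp [h]
    · rw [charmatrix_apply_ne _ _ _ (by simp)]; simp
    · rw [charmatrix_apply_ne _ _ _ (by simp)]; simp
    · by_cases h : i = j
      · subst h; simp [charmatrix_apply_eq]
      · rw [charmatrix_apply_ne _ _ _ (by simpa using h)]; simp [h]
  have h2 : charmatrix (fromBlocks (0 : Matrix γ γ ℝ) B Bᵀ (0 : Matrix δ δ ℝ)) *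
      fromBlocks (1 : Matrix γ γ ℝ[X]) (B.map C) 0 ((X : ℝ[X]) • (1 : Matrix δ δ ℝ[X])) =
      fromBlocks ((X : ℝ[X]) • (1 : Matrix γ γ ℝ[X])) 0 (-(Bᵀ.map C))
        (((X : ℝ[X]) ^ 2) • (1 : Matrix δ δ ℝ[X]) - (Bᵀ * B).map C) := by
    rw [h1, fromBlocks_multiply]
    congr 1
    · simp
    · simp
    · simp
    · rw [Matrix.map_mul, Matrix.neg_mul, Matrix.smul_mul, Matrix.one_mul, smul_smul, ← sq,
        add_comm, ← sub_eq_add_neg]
  have h3 := congrArg Matrix.det h2
  rw [det_mul, det_fromBlocks_zero₂₁, det_fromBlocks_zero₁₂, det_one, one_mul, det_smul, det_smul,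
    det_one, det_one, mul_one, mul_one] at h3
  unfold dpol
  exact h3

theorem charpoly_eq_of_dpol {γ γ' δ : Type*} [Fintype γ] [Fintype γ'] [Fintype δ]
    [DecidableEq γ] [DecidableEq γ'] [DecidableEq δ] (B : Matrix γ δ ℝ) (B' : Matrix γ' δ ℝ)
    (hc : Fintype.card γ = Fintype.card γ') (h : dpol B = dpol B') :
    (fromBlocks (0 : Matrix γ γ ℝ) B Bᵀ (0 : Matrix δ δ ℝ)).charpoly =
      (fromBlocks (0 : Matrix γ' γ' ℝ) B' B'ᵀ (0 : Matrix δ δ ℝ)).charpoly := by
  have h1 := charpoly_bip B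
  have h2 := charpoly_bip B'
  rw [hc, h, ← h2] at h1
  exact mul_right_cancel₀ (pow_ne_zero _ X_ne_zero) h1

theorem dpol_sum {γ γ' δ δ' : Type*} [Fintype γ] [Fintype γ'] [Fintype δ] [Fintype δ']
    [DecidableEq δ] [DecidableEq δ'] (B : Matrix γ δ ℝ) (B' : Matrix γ' δ' ℝ) :
    dpol (fromBlocks B 0 0 B') = dpol B * dpol B' := by
  unfold dpol
  rw [fromBlocks_transpose, fromBlocks_multiply]
  simp only [transpose_zero, Matrix.zero_mul, Matrix.mul_zero, add_zero, zero_add]
  have h : ((X : ℝ[X]) ^ 2) • (1 : Matrix (δ ⊕ δ') (δ ⊕ δ') ℝ[X]) -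
      (fromBlocks (Bᵀ * B) 0 0 (B'ᵀ * B')).map C =
      fromBlocks (((X : ℝ[X]) ^ 2) • (1 : Matrix δ δ ℝ[X]) - (Bᵀ * B).map C) 0 0
        (((X : ℝ[X]) ^ 2) • (1 : Matrix δ' δ' ℝ[X]) - (B'ᵀ * B').map C) := by
    rw [← fromBlocks_one]
    refine Matrix.ext fun i j => ?_
    rcases i with i | i <;> rcases j with j | j
    · rfl
    · simp
    · simp
    · rfl
  rw [h, det_fromBlocks_zero₂₁]

theorem bim_sum {γ γ' δ δ' : Type*} (F : γ → δ → Prop) (G : γ' → δ' → Prop) :
    bim (Sum.LiftRel F G) = fromBlocks (bim F) 0 0 (bim G) := by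
  ext i j
  rcases i with i | i <;> rcases j with j | j
  · simp only [bim, fromBlocks_apply₁₁]
    congr 1
    exact propext Sum.liftRel_inl_inl
  · simp only [bim, fromBlocks_apply₁₂]
    exact if_neg (fun h => Sum.not_liftRel_inl_inr h)
  · simp only [bim, fromBlocks_apply₂₁]
    exact if_neg (fun h => Sum.not_liftRel_inr_inl h)
  · simp only [bim, fromBlocks_apply₂₂]
    congr 1
    exact propext Sum.liftRel_inr_inr

/-- tensor power of a matrix -/
noncomputable def tens {γ δ : Type*} (k : ℕ) (M : Matrix γ δ ℝ) :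
    Matrix (Fin k → γ) (Fin k → δ) ℝ := fun x y => ∏ i, M (x i) (y i)

theorem tens_mul {γ δ ε : Type*} [Fintype δ] [DecidableEq δ] (k : ℕ) (M : Matrix γ δ ℝ)
    (N : Matrix δ ε ℝ) : tens k M * tens k N = tens k (M * N) := by
  ext x z
  rw [Matrix.mul_apply]
  show ∑ y : Fin k → δ, (∏ i, M (x i) (y i)) * (∏ i, N (y i) (z i)) = ∏ i, (M * N) (x i) (z i)
  simp_rw [← Finset.prod_mul_distrib, Matrix.mul_apply]
  rw [Finset.prod_univ_sum, Fintype.piFinset_univ]

theorem tens_transpose {γ δ : Type*} (k : ℕ) (M : Matrix γ δ ℝ) :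
    (tens k M)ᵀ = tens k Mᵀ := rfl

theorem tens_one {δ : Type*} [DecidableEq δ] (k : ℕ) :
    tens k (1 : Matrix δ δ ℝ) = 1 := by
  ext x y
  unfold tens
  by_cases h : x = y
  · subst h; simp
  · rw [Matrix.one_apply_ne h]
    obtain ⟨i, hi⟩ := Function.ne_iff.mp h
    exact Finset.prod_eq_zero (mem_univ i) (Matrix.one_apply_ne hi)

theorem bim_tens {γ δ : Type*} (F : γ → δ → Prop) (k : ℕ) :
    bim (fun (x : Fin k → γ) (y : Fin k → δ) => ∀ i, F (x i) (y i)) = tens k (bim F) := by
  classical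
  ext x y
  by_cases h : ∀ i, F (x i) (y i)
  · have h1 : bim (fun (x : Fin k → γ) (y : Fin k → δ) => ∀ i, F (x i) (y i)) x y = 1 := if_pos h
    rw [h1]
    symm
    exact Finset.prod_eq_one (fun i _ => if_pos (h i))
  · have h1 : bim (fun (x : Fin k → γ) (y : Fin k → δ) => ∀ i, F (x i) (y i)) x y = 0 := if_neg h
    rw [h1]
    push Not at h
    obtain ⟨i, hi⟩ := h
    symm
    exact Finset.prod_eq_zero (mem_univ i) (if_neg hi)

theorem dpol_tens {γ γ' δ : Type*} [Fintype γ] [Fintype γ'] [Fintype δ] [DecidableEq γ]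
    [DecidableEq γ'] [DecidableEq δ] (B : Matrix γ δ ℝ) (B' : Matrix γ' δ ℝ) (P P' : Matrix δ δ ℝ)
    (hP : P' * P = 1) (h : (Bᵀ * B) * P = P * (B'ᵀ * B')) (k : ℕ) :
    dpol (tens k B) = dpol (tens k B') := by
  unfold dpol
  rw [tens_transpose, tens_transpose, tens_mul, tens_mul]
  set M := tens k (Bᵀ * B) with hM
  set M' := tens k (B'ᵀ * B') with hM'
  set T := tens k P with hT
  set T' := tens k P' with hT'
  have h1 : M * T = T * M' := by rw [hM, hT, hM', tens_mul, tens_mul, h]
  have h2 : T' * T = 1 := by rw [hT, hT', tens_mul, hP, tens_one]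
  have h3 : ((((X : ℝ[X]) ^ 2) • (1 : Matrix (Fin k → δ) (Fin k → δ) ℝ[X]) - M.map C) * T.map C) =
      T.map C * (((X : ℝ[X]) ^ 2) • (1 : Matrix (Fin k → δ) (Fin k → δ) ℝ[X]) - M'.map C) := by
    rw [sub_mul, mul_sub, ← Matrix.map_mul, ← Matrix.map_mul, h1]
    simp
  have h4 := congrArg Matrix.det h3
  rw [det_mul, det_mul, mul_comm] at h4
  have h5 : (T.map C).det ≠ 0 := by
    intro h0
    have h6 : (T'.map C) * (T.map C) = (1 : Matrix (Fin k → δ) (Fin k → δ) ℝ[X]) := by
      rw [← Matrix.map_mul, h2]; simp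
    have h7 := congrArg Matrix.det h6
    rw [det_mul, h0, mul_zero, det_one] at h7
    exact zero_ne_one h7
  exact mul_left_cancel₀ h5 h4

/-- center of a leaf in the star forest -/
def center (p : (Fin 16 ⊕ Fin 16) × Fin 16) : Fin 16 ⊕ Fin 16 :=
  if p.1 = Sum.inr 0 then Sum.inl 0 else p.1

/-- the star forest `K_{1,32} ∪ 30 K_{1,16}` plus an isolated vertex -/
def stars (p : (Fin 16 ⊕ Fin 16) × Fin 16) (l : Fin 16 ⊕ Fin 16) : Prop := center p = l

/-- change of basis -/
noncomputable def PP : Matrix (Fin 16 ⊕ Fin 16) (Fin 16 ⊕ Fin 16) ℝ := fun l s =>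
  match s with
  | Sum.inl s => if s = 0 then 1 else (match l with
    | Sum.inl r => (if r = s then 1 else 0) - (if r = 0 then 1 else 0)
    | Sum.inr _ => 0)
  | Sum.inr s => if s = 0 then (match l with | Sum.inl _ => 1 | Sum.inr _ => -1) else (match l with
    | Sum.inl _ => 0
    | Sum.inr r => (if r = s then 1 else 0) - (if r = 0 then 1 else 0))

noncomputable def PP' : Matrix (Fin 16 ⊕ Fin 16) (Fin 16 ⊕ Fin 16) ℝ := fun s l =>
  match s with
  | Sum.inl s => if s = 0 then 1 / 32 else (match l with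
    | Sum.inl r => (if r = s then 1 else 0) - 1 / 16
    | Sum.inr _ => 0)
  | Sum.inr s => if s = 0 then (match l with | Sum.inl _ => 1 / 32 | Sum.inr _ => -1 / 32)
    else (match l with
    | Sum.inl _ => 0
    | Sum.inr r => (if r = s then 1 else 0) - 1 / 16)



theorem PP_inv : PP' * PP = 1 := by
  ext s t
  rw [Matrix.mul_apply, Fintype.sum_sum_type]
  rcases s with s | s <;> rcases t with t | t <;> by_cases hs : s = 0 <;> by_cases ht : t = 0
  · subst hs; subst ht
    simp [PP, PP']; norm_num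
  · subst hs
    simp [PP, PP', ht, Matrix.one_apply, ← Finset.mul_sum, Finset.sum_sub_distrib, Ne.symm ht]
  · subst ht
    simp [PP, PP', hs, Finset.sum_sub_distrib, Matrix.one_apply]
  · simp [PP, PP', hs, ht, Finset.sum_sub_distrib, mul_sub, Matrix.one_apply, Ne.symm hs,
      eq_comm]
  · subst hs; subst ht
    simp [PP, PP']
  · subst hs
    simp [PP, PP', ht, Matrix.one_apply, ← Finset.mul_sum, Finset.sum_sub_distrib, Ne.symm ht]
  · subst ht
    simp [PP, PP', hs, Finset.sum_sub_distrib, Matrix.one_apply]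
  · simp [PP, PP', hs, ht, Finset.sum_sub_distrib, mul_sub, Matrix.one_apply, Ne.symm hs,
      eq_comm]
  · subst hs; subst ht
    simp [PP, PP', Matrix.one_apply]; norm_num
  · subst hs
    simp [PP, PP', ht, Matrix.one_apply, ← Finset.mul_sum, Finset.sum_sub_distrib, Ne.symm ht]
  · subst ht
    simp [PP, PP', hs, Finset.sum_sub_distrib, Matrix.one_apply]
  · simp [PP, PP', hs, ht, Finset.sum_sub_distrib, mul_sub, Matrix.one_apply, Ne.symm hs,
      eq_comm]
  · subst hs; subst ht
    simp [PP, PP']; norm_num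
  · subst hs
    simp [PP, PP', ht, Matrix.one_apply, ← Finset.mul_sum, Finset.sum_sub_distrib, Ne.symm ht]
  · subst ht
    simp [PP, PP', hs, Finset.sum_sub_distrib, Matrix.one_apply]
  · simp [PP, PP', hs, ht, Finset.sum_sub_distrib, mul_sub, Matrix.one_apply, Ne.symm hs,
      eq_comm]

/-- The Gram matrix of `rook`. -/
noncomputable def gramR : Matrix (Fin 16 ⊕ Fin 16) (Fin 16 ⊕ Fin 16) ℝ := fun l m =>
  match l, m with
  | Sum.inl r, Sum.inl r' => if r = r' then 16 else 0
  | Sum.inl _, Sum.inr _ => 1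
  | Sum.inr _, Sum.inl _ => 1
  | Sum.inr r, Sum.inr r' => if r = r' then 16 else 0

/-- The diagonal of the Gram matrix of `stars`. -/
noncomputable def dS (l : Fin 16 ⊕ Fin 16) : ℝ :=
  match l with
    | Sum.inl s => if s = 0 then 32 else 16
    | Sum.inr s => if s = 0 then 0 else 16

theorem bim_rook_false (p : Fin 16 × Fin 16) (l : Fin 16 ⊕ Fin 16) : bim rook (p, false) l = 0 := by
  unfold bim rook
  rw [if_neg]
  rintro ⟨h, -⟩
  simp at h

theorem bim_rook_inl (p : Fin 16 × Fin 16) (l : Fin 16) :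
    bim rook (p, true) (Sum.inl l) = if p.1 = l then 1 else 0 := by
  unfold bim rook
  simp

theorem bim_rook_inr (p : Fin 16 × Fin 16) (l : Fin 16) :
    bim rook (p, true) (Sum.inr l) = if p.2 = l then 1 else 0 := by
  unfold bim rook
  simp

theorem gram_rook : (bim rook)ᵀ * bim rook = gramR := by
  ext l m
  rw [Matrix.mul_apply, Fintype.sum_prod_type, Fintype.sum_prod_type]
  simp only [Fintype.sum_bool, transpose_apply, bim_rook_false, mul_zero, add_zero]
  rcases l with l | l <;> rcases m with m | m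
  · simp only [bim_rook_inl, gramR]
    by_cases h : l = m
    · subst h
      simp
    · rw [if_neg h]
      apply Finset.sum_eq_zero
      intro x _
      apply Finset.sum_eq_zero
      intro y _
      by_cases hx : x = l
      · subst hx; simp [h]
      · simp [hx]
  · simp only [bim_rook_inl, bim_rook_inr, gramR]
    simp
  · simp only [bim_rook_inl, bim_rook_inr, gramR]
    simp
  · simp only [bim_rook_inr, gramR]
    by_cases h : l = m
    · subst h
      simp
    · simp [h, Ne.symm h]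

theorem gram_stars : (bim stars)ᵀ * bim stars = diagonal dS := by
  classical
  ext l m
  rw [Matrix.mul_apply, Fintype.sum_prod_type, Fintype.sum_sum_type]
  have h : ∀ (p : (Fin 16 ⊕ Fin 16) × Fin 16) (l m : Fin 16 ⊕ Fin 16),
    (bim stars)ᵀ l p * bim stars p m = if l = m then (if center p = l then 1 else 0) else 0 := by
    intro p l m
    simp only [transpose_apply, bim, stars]
    by_cases h1 : l = m
    · subst h1
      by_cases h2 : center p = l <;> simp [h2]
    · by_cases h2 : center p = l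
      · subst h2; simp [h1]
      · simp [h2]
  simp only [h]
  by_cases h1 : l = m
  · subst h1
    simp only [if_true, center]
    rw [diagonal_apply_eq]
    rcases l with l | l <;> by_cases h0 : l = 0
    · subst h0
      simp [dS]
      norm_num
    · simp [dS, h0, Ne.symm h0]
      apply Finset.sum_eq_zero
      intro x _
      by_cases hx : x = 0 <;> simp [hx, Ne.symm h0]
    · subst h0
      simp [dS]
      apply Finset.sum_eq_zero
      intro x _
      by_cases hx : x = 0 <;> simp [hx]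
    · simp [dS, h0, Ne.symm h0]
      rw [Finset.sum_eq_single l]
      · simp [h0]
      · intro b _ hb
        by_cases hx : b = 0 <;> simp [hx, hb]
      · simp
  · simp [h1]

theorem gram_conj : gramR * PP = PP * diagonal dS := by
  ext s t
  rw [Matrix.mul_apply, mul_diagonal, Fintype.sum_sum_type]
  rcases s with s | s <;> rcases t with t | t <;> by_cases ht : t = 0
  · subst ht
    simp [gramR, PP, dS]
    norm_num
  · simp [gramR, PP, dS, ht]
    ring
  · subst ht
    simp [gramR, PP, dS]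
  · simp [gramR, PP, dS, ht]
  · subst ht
    simp [gramR, PP, dS]
    norm_num
  · simp [gramR, PP, dS, ht]
  · subst ht
    simp [gramR, PP, dS]
  · simp [gramR, PP, dS, ht]
    ring

/-- The two tensor powers have the same `dpol`. -/
theorem dpol_rook_stars (k : ℕ) :
    dpol (tens k (bim rook)) = dpol (tens k (bim stars)) := by
  classical
  apply dpol_tens _ _ PP PP' PP_inv
  rw [gram_rook, gram_stars, gram_conj]

/-- adjacency matrix of the bipartite graph of a relation -/
noncomputable def adjB {γ δ : Type*} (F : γ → δ → Prop) : Matrix (γ ⊕ δ) (γ ⊕ δ) ℝ :=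
  fromBlocks 0 (bim F) (bim F)ᵀ 0

def TA (k : ℕ) : Type := Fin k → (Fin 16 × Fin 16) × Bool
def TA' (k : ℕ) : Type := Fin k → (Fin 16 ⊕ Fin 16) × Fin 16
def TD (k : ℕ) : Type := Fin k → Fin 16 ⊕ Fin 16

instance (k : ℕ) : Fintype (TA k) := inferInstanceAs (Fintype (Fin k → (Fin 16 × Fin 16) × Bool))
instance (k : ℕ) : Fintype (TA' k) := inferInstanceAs (Fintype (Fin k → (Fin 16 ⊕ Fin 16) × Fin 16))
instance (k : ℕ) : Fintype (TD k) := inferInstanceAs (Fintype (Fin k → Fin 16 ⊕ Fin 16))
instance (k : ℕ) : DecidableEq (TA k) :=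
  inferInstanceAs (DecidableEq (Fin k → (Fin 16 × Fin 16) × Bool))
instance (k : ℕ) : DecidableEq (TA' k) :=
  inferInstanceAs (DecidableEq (Fin k → (Fin 16 ⊕ Fin 16) × Fin 16))
instance (k : ℕ) : DecidableEq (TD k) := inferInstanceAs (DecidableEq (Fin k → Fin 16 ⊕ Fin 16))

theorem card_TA (k : ℕ) : Fintype.card (TA k) = 512 ^ k := by
  have : Fintype.card (TA k) = Fintype.card (Fin k → (Fin 16 × Fin 16) × Bool) :=
    Fintype.card_congr (Equiv.refl _)
  rw [this]; simp

theorem card_TA' (k : ℕ) : Fintype.card (TA' k) = 512 ^ k := by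
  have : Fintype.card (TA' k) = Fintype.card (Fin k → (Fin 16 ⊕ Fin 16) × Fin 16) :=
    Fintype.card_congr (Equiv.refl _)
  rw [this]; simp

theorem card_TD (k : ℕ) : Fintype.card (TD k) = 32 ^ k := by
  have : Fintype.card (TD k) = Fintype.card (Fin k → Fin 16 ⊕ Fin 16) :=
    Fintype.card_congr (Equiv.refl _)
  rw [this]; simp

def rookk (k : ℕ) (x : TA k) (y : TD k) : Prop := ∀ i, rook (x i) (y i)
def starsk (k : ℕ) (x : TA' k) (y : TD k) : Prop := ∀ i, stars (x i) (y i)

theorem dpol_rookk_starsk (k : ℕ) : dpol (bim (rookk k)) = dpol (bim (starsk k)) := by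
  have h1 : dpol (bim (rookk k)) = dpol (tens k (bim rook)) := by
    rw [← bim_tens]
    rfl
  have h2 : dpol (bim (starsk k)) = dpol (tens k (bim stars)) := by
    rw [← bim_tens]
    rfl
  rw [h1, h2, dpol_rook_stars]

/-- Cospectrality. -/
theorem charpoly_main {γ δ : Type*} [Fintype γ] [Fintype δ] [DecidableEq γ] [DecidableEq δ]
    (F : γ → δ → Prop) (k : ℕ) :
    (adjB (Sum.LiftRel F (rookk k))).charpoly = (adjB (Sum.LiftRel F (starsk k))).charpoly := by
  unfold adjB
  apply charpoly_eq_of_dpol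
  · simp [card_TA, card_TA']
  · rw [bim_sum, bim_sum, dpol_sum, dpol_sum, dpol_rookk_starsk]

end Pool.Agent.H140.LL
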