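import Mathlib
import Pool.Agent.H140.LL.Spectral
import Pool.Agent.H140.LL.Random

set_option autoImplicit false
set_option linter.unusedSectionVars false

namespace Pool.Agent.H140.LL

open Finset

/-- change of source -/
theorem homCount_congr' {α β α' β' γ δ : Type*} (E : α → β → Prop) (E' : α' → β' → Prop)
    (F : γ → δ → Prop) (e1 : α ≃ α') (e2 : β ≃ β') (h : ∀ x y, E x y ↔ E' (e1 x) (e2 y)) :
    homCount E F = homCount E' F := by
  unfold homCount
  apply Nat.card_congr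
  refine
    { toFun := fun p => ⟨(fun x => p.1.1 (e1.symm x), fun y => p.1.2 (e2.symm y)), fun x y hxy =>
        p.2 _ _ ((h _ _).mpr (by simpa using hxy))⟩
      invFun := fun p => ⟨(fun x => p.1.1 (e1 x), fun y => p.1.2 (e2 y)), fun x y hxy =>
        p.2 _ _ ((h _ _).mp hxy)⟩
      left_inv := fun p => by
        apply Subtype.ext; apply Prod.ext <;> funext z <;> simp
      right_inv := fun p => by
        apply Subtype.ext; apply Prod.ext <;> funext z <;> simp }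

theorem val_congr {α β α' β' γ δ : Type*} [Finite α] [Finite β] [Finite α'] [Finite β']
    (E : α → β → Prop) (E' : α' → β' → Prop)
    (e1 : α ≃ α') (e2 : β ≃ β') (h : ∀ x y, E x y ↔ E' (e1 x) (e2 y)) (f : α' → γ) (g : β' → δ) :
    val E (f ∘ e1) (g ∘ e2) = val E' f g := by
  unfold val
  have h1 : Set.range (f ∘ e1) = Set.range f := e1.surjective.range_comp f
  have h2 : Set.range (g ∘ e2) = Set.range g := e2.surjective.range_comp g
  have h3 : imE E (f ∘ e1) (g ∘ e2) = imE E' f g := by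
    ext q
    constructor
    · rintro ⟨x, y, hxy, hx, hy⟩
      exact ⟨e1 x, e2 y, (h x y).mp hxy, hx, hy⟩
    · rintro ⟨x, y, hxy, hx, hy⟩
      refine ⟨e1.symm x, e2.symm y, (h _ _).mpr (by simpa using hxy), ?_, ?_⟩
      · simpa using hx
      · simpa using hy
  rw [h1, h2, h3]

theorem opt_congr {α β α' β' : Type*} [Finite α] [Finite β] [Finite α'] [Finite β']
    (E : α → β → Prop) (E' : α' → β' → Prop)
    (e1 : α ≃ α') (e2 : β ≃ β') (h : ∀ x y, E x y ↔ E' (e1 x) (e2 y)) :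
    opt E = opt E' := by
  apply le_antisymm
  · obtain ⟨f, g, hfg⟩ := exists_opt E
    have h1 := val_congr E' E e1.symm e2.symm (fun x y => by rw [h]; simp) f g
    rw [hfg, ← h1]
    exact val_le_opt _ _ _
  · obtain ⟨f, g, hfg⟩ := exists_opt E'
    have h1 := val_congr E E' e1 e2 h f g
    rw [hfg, ← h1]
    exact val_le_opt _ _ _

theorem Good_congr {α β α' β' : Type*} [Fintype α] [Fintype β] [Fintype α'] [Fintype β']
    (Q : ℕ) (E : α → β → Prop) (E' : α' → β' → Prop) (g : Fin (Q ^ 2) × Fin (Q ^ 2) → Fin Q)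
    (e1 : α ≃ α') (e2 : β ≃ β') (h : ∀ x y, E x y ↔ E' (e1 x) (e2 y)) :
    Good Q E g ↔ Good Q E' g := by
  unfold Good
  rw [opt_congr E E' e1 e2 h, homCount_congr' E E' _ e1 e2 h, Fintype.card_congr e1,
    Fintype.card_congr e2]

/-- `g` is good for all relations between `Fin a` and `Fin b`, `a, b ≤ n`. -/
def GoodAll (n Q : ℕ) (g : Fin (Q ^ 2) × Fin (Q ^ 2) → Fin Q) : Prop :=
  ∀ a b : ℕ, a ≤ n → b ≤ n → ∀ E : Fin a → Fin b → Prop, Good Q E g

theorem GoodAll.any {n Q : ℕ} {g : Fin (Q ^ 2) × Fin (Q ^ 2) → Fin Q}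
    (h : GoodAll n Q g) {α β : Type*} [Fintype α] [Fintype β] (ha : Fintype.card α ≤ n)
    (hb : Fintype.card β ≤ n) (E : α → β → Prop) : Good Q E g := by
  have h1 := h _ _ ha hb (fun i j => E ((Fintype.equivFin α).symm i) ((Fintype.equivFin β).symm j))
  exact (Good_congr Q E _ g (Fintype.equivFin α) (Fintype.equivFin β)
    (fun x y => by simp)).mpr h1

theorem exists_goodAll (n : ℕ) : ∃ K : ℝ, ∀ Q : ℕ, K < (Q : ℝ) → ∃ g, GoodAll n Q g := by
  classical
  have key : ∀ i : (Σ a : Fin (n + 1), Σ b : Fin (n + 1), (Fin a → Fin b → Prop)),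
      ∃ K : ℝ, 0 ≤ K ∧ ∀ Q : ℕ, 2 * ((i.1 : ℕ) + (i.2.1 : ℕ)) + 1 ≤ Q →
    ((univ.filter (fun g : Fin (Q ^ 2) × Fin (Q ^ 2) → Fin Q => ¬ Good Q i.2.2 g)).card : ℝ) ≤
      K / Q * (Q : ℝ) ^ (Q ^ 2 * Q ^ 2) := by
    intro i
    obtain ⟨K, hK, h⟩ := bad_count i.2.2
    refine ⟨K, hK, fun Q hQ => ?_⟩
    convert h Q (by simpa using hQ)
  choose K hK0 hK using key
  have : Finite (Σ a : Fin (n + 1), Σ b : Fin (n + 1), (Fin a → Fin b → Prop)) := inferInstance
  have := Fintype.ofFinite (Σ a : Fin (n + 1), Σ b : Fin (n + 1), (Fin a → Fin b → Prop))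
  have hS : 0 ≤ ∑ i, K i := Finset.sum_nonneg (fun i _ => hK0 i)
  refine ⟨∑ i, K i + 4 * n + 1, fun Q hQ => ?_⟩
  by_contra hcon
  push Not at hcon
  have hQ0 : (0 : ℝ) < Q := by
    have : (0 : ℝ) ≤ n := Nat.cast_nonneg n
    linarith
  have hQ4 : 4 * n + 1 ≤ Q := by
    have : ((4 * n + 1 : ℕ) : ℝ) ≤ Q := by push_cast; linarith
    exact_mod_cast this
  have hcov : (univ : Finset (Fin (Q ^ 2) × Fin (Q ^ 2) → Fin Q)) ⊆
      univ.biUnion (fun i : (Σ a : Fin (n + 1), Σ b : Fin (n + 1), (Fin a → Fin b → Prop)) =>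
        univ.filter (fun g : Fin (Q ^ 2) × Fin (Q ^ 2) → Fin Q => ¬ Good Q i.2.2 g)) := by
    intro g _
    have h1 := hcon g
    unfold GoodAll at h1
    push Not at h1
    obtain ⟨a, b, ha, hb, E, hE⟩ := h1
    rw [Finset.mem_biUnion]
    exact ⟨⟨⟨a, by omega⟩, ⟨b, by omega⟩, E⟩, mem_univ _,
      Finset.mem_filter.mpr ⟨mem_univ _, hE⟩⟩
  have h2 := (Finset.card_le_card hcov).trans Finset.card_biUnion_le
  have h3 : (univ : Finset (Fin (Q ^ 2) × Fin (Q ^ 2) → Fin Q)).card = Q ^ (Q ^ 2 * Q ^ 2) := by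
    rw [Finset.card_univ]; simp
  rw [h3] at h2
  have h4 : ((Q ^ (Q ^ 2 * Q ^ 2) : ℕ) : ℝ) ≤ ∑ i, K i / Q * (Q : ℝ) ^ (Q ^ 2 * Q ^ 2) := by
    have h5 : ((Q ^ (Q ^ 2 * Q ^ 2) : ℕ) : ℝ) ≤
      ∑ i : (Σ a : Fin (n + 1), Σ b : Fin (n + 1), (Fin a → Fin b → Prop)),
        ((univ.filter (fun g : Fin (Q ^ 2) × Fin (Q ^ 2) → Fin Q => ¬ Good Q i.2.2 g)).card : ℝ) := by
      exact_mod_cast h2
    refine h5.trans (Finset.sum_le_sum (fun i _ => hK i Q ?_))
    have h6 := i.1.2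
    have h7 := i.2.1.2
    omega
  rw [← Finset.sum_mul, ← Finset.sum_div] at h4
  push_cast at h4
  have h8 : (0 : ℝ) < (Q : ℝ) ^ (Q ^ 2 * Q ^ 2) := by positivity
  have h9 : (∑ i, K i) / Q < 1 := by
    rw [div_lt_one hQ0]
    have : (0 : ℝ) ≤ n := Nat.cast_nonneg n
    linarith
  nlinarith

/-- diagonal choice -/
theorem diag {T : ℕ → Type} [∀ k, Nonempty (T k)] (P : ℕ → ∀ k, T k → Prop)
    (hmono : ∀ m n k g, m ≤ n → P n k g → P m k g)
    (hA : ∀ n, ∃ k0, ∀ k, k0 ≤ k → ∃ g, P n k g) :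
    ∃ g : ∀ k, T k, ∀ n, ∃ k1, ∀ k, k1 ≤ k → P n k (g k) := by
  classical
  let N : ℕ → ℕ := fun k => Nat.findGreatest (fun n => ∃ g, P n k g) k
  refine ⟨fun k => if h : ∃ g, P (N k) k g then h.choose else Classical.arbitrary _, fun n => ?_⟩
  obtain ⟨k0, hk0⟩ := hA n
  refine ⟨max k0 n, fun k hk => ?_⟩
  have h1 : ∃ g, P n k g := hk0 k ((le_max_left _ _).trans hk)
  have h2 : n ≤ N k := Nat.le_findGreatest ((le_max_right _ _).trans hk) h1
  have h3 : ∃ g, P (N k) k g :=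
    Nat.findGreatest_spec (P := fun n => ∃ g, P n k g) ((le_max_right _ _).trans hk) h1
  have h4 := h3.choose_spec
  simp only [dif_pos h3]
  exact hmono _ _ _ _ h2 h4

theorem exists_seq : ∃ g : ∀ k : ℕ, (Fin ((24 ^ k) ^ 2) × Fin ((24 ^ k) ^ 2) → Fin (24 ^ k)),
    ∀ n, ∃ k1, ∀ k, k1 ≤ k → GoodAll n (24 ^ k) (g k) := by
  have : ∀ k, Nonempty (Fin ((24 ^ k) ^ 2) × Fin ((24 ^ k) ^ 2) → Fin (24 ^ k)) :=
    fun k => ⟨fun _ => ⟨0, by positivity⟩⟩
  apply diag (T := fun k => (Fin ((24 ^ k) ^ 2) × Fin ((24 ^ k) ^ 2) → Fin (24 ^ k)))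
    (fun n k g => GoodAll n (24 ^ k) g)
  · intro m n k g hmn h a b ha hb E
    exact h a b (ha.trans hmn) (hb.trans hmn) E
  · intro n
    obtain ⟨K, hK⟩ := exists_goodAll n
    obtain ⟨k0, hk0⟩ := exists_nat_gt K
    refine ⟨k0, fun k hk => hK _ ?_⟩
    have hQk : k < 24 ^ k := Nat.lt_pow_self (by norm_num)
    have : (k : ℝ) < ((24 ^ k : ℕ) : ℝ) := by exact_mod_cast hQk
    have h2 : (k0 : ℝ) ≤ k := by exact_mod_cast hk
    linarith

theorem homCount_rookk_le {α β : Type*} [Fintype α] [Fintype β] (E : α → β → Prop) (k : ℕ) :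
    (homCount E (rookk k) : ℝ) ≤ ((24 ^ k : ℕ) : ℝ) ^ (opt E) := by
  have h1 : homCount E (rookk k) = (homCount E rook) ^ k := homCount_tensor E rook k
  rw [h1]
  push_cast
  have h2 := harmless E
  calc ((homCount E rook : ℝ)) ^ k ≤ ((24 : ℝ) ^ (opt E)) ^ k := by gcongr
    _ = ((24 : ℝ) ^ k) ^ (opt E) := by
      rw [← zpow_natCast, ← zpow_natCast, ← zpow_mul, ← zpow_mul, mul_comm]

/-- Upper bound for the union of the random part and of the harmless part. -/
theorem union_le {α β : Type*} [Fintype α] [Fintype β] (E : α → β → Prop) :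
    ∃ C : ℝ, 0 < C ∧ ∀ (k : ℕ) (g : Fin ((24 ^ k) ^ 2) × Fin ((24 ^ k) ^ 2) → Fin (24 ^ k)),
      GoodAll (max (Fintype.card α) (Fintype.card β)) (24 ^ k) g →
      (homCount E (Sum.LiftRel (rel (24 ^ k) g) (rookk k)) : ℝ) ≤
        C * ((24 ^ k : ℕ) : ℝ) ^ (opt E) := by
  classical
  have := Fintype.ofFinite (Spl E)
  refine ⟨(Fintype.card (Spl E) : ℝ) * (2 * (((Fintype.card α).factorial : ℝ) *
    ((Fintype.card β).factorial : ℝ))) + 1, by positivity, ?_⟩
  intro k g hg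
  have hQ1 : (1 : ℝ) ≤ ((24 ^ k : ℕ) : ℝ) := by
    push_cast
    exact one_le_pow₀ (by norm_num)
  have h1 := homCount_sum_le E (rel (24 ^ k) g) (rookk k)
  have h2 : (homCount E (Sum.LiftRel (rel (24 ^ k) g) (rookk k)) : ℝ) ≤
      ∑ s : Spl E,
        (homCount (fun (x : {x // x ∈ s.1.1}) (y : {y // y ∈ s.1.2}) => E x.1 y.1)
          (rel (24 ^ k) g) : ℝ) *
        (homCount (fun (x : {x // x ∉ s.1.1}) (y : {y // y ∉ s.1.2}) => E x.1 y.1)
          (rookk k) : ℝ) := by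
    exact_mod_cast h1
  refine h2.trans ?_
  have h3 : ∀ s : Spl E,
        (homCount (fun (x : {x // x ∈ s.1.1}) (y : {y // y ∈ s.1.2}) => E x.1 y.1)
          (rel (24 ^ k) g) : ℝ) *
        (homCount (fun (x : {x // x ∉ s.1.1}) (y : {y // y ∉ s.1.2}) => E x.1 y.1)
          (rookk k) : ℝ) ≤ (2 * (((Fintype.card α).factorial : ℝ) *
    ((Fintype.card β).factorial : ℝ))) * ((24 ^ k : ℕ) : ℝ) ^ (opt E) := by
    intro s
    have ha : Fintype.card {x // x ∈ s.1.1} ≤ Fintype.card α := Fintype.card_subtype_le _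
    have hb : Fintype.card {y // y ∈ s.1.2} ≤ Fintype.card β := Fintype.card_subtype_le _
    have h4 := (hg.any (ha.trans (le_max_left _ _)) (hb.trans (le_max_right _ _))
      (fun (x : {x // x ∈ s.1.1}) (y : {y // y ∈ s.1.2}) => E x.1 y.1)).2
    have h5 := homCount_rookk_le (fun (x : {x // x ∉ s.1.1}) (y : {y // y ∉ s.1.2}) => E x.1 y.1) k
    have h6 := opt_split E s.1.1 s.1.2 s.2
    have hpos : (0 : ℝ) < ((24 ^ k : ℕ) : ℝ) := by linarith
    calc _ ≤ (2 * (((Fintype.card {x // x ∈ s.1.1}).factorial : ℝ) *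
          ((Fintype.card {y // y ∈ s.1.2}).factorial : ℝ)) * ((24 ^ k : ℕ) : ℝ) ^
          (opt (fun (x : {x // x ∈ s.1.1}) (y : {y // y ∈ s.1.2}) => E x.1 y.1))) *
          ((24 ^ k : ℕ) : ℝ) ^
          (opt (fun (x : {x // x ∉ s.1.1}) (y : {y // y ∉ s.1.2}) => E x.1 y.1)) := by
            gcongr
      _ ≤ (2 * (((Fintype.card α).factorial : ℝ) * ((Fintype.card β).factorial : ℝ)) *
          ((24 ^ k : ℕ) : ℝ) ^
          (opt (fun (x : {x // x ∈ s.1.1}) (y : {y // y ∈ s.1.2}) => E x.1 y.1))) *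
          ((24 ^ k : ℕ) : ℝ) ^
          (opt (fun (x : {x // x ∉ s.1.1}) (y : {y // y ∉ s.1.2}) => E x.1 y.1)) := by
            have h7 : ((Fintype.card {x // x ∈ s.1.1}).factorial : ℝ) ≤
              ((Fintype.card α).factorial : ℝ) := by exact_mod_cast Nat.factorial_le ha
            have h8 : ((Fintype.card {y // y ∈ s.1.2}).factorial : ℝ) ≤
              ((Fintype.card β).factorial : ℝ) := by exact_mod_cast Nat.factorial_le hb
            gcongr
      _ = (2 * (((Fintype.card α).factorial : ℝ) * ((Fintype.card β).factorial : ℝ))) *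
          ((24 ^ k : ℕ) : ℝ) ^
          (opt (fun (x : {x // x ∈ s.1.1}) (y : {y // y ∈ s.1.2}) => E x.1 y.1) +
          opt (fun (x : {x // x ∉ s.1.1}) (y : {y // y ∉ s.1.2}) => E x.1 y.1)) := by
            rw [zpow_add₀ hpos.ne']; ring
      _ ≤ _ := by
            gcongr
  calc _ ≤ ∑ s : Spl E, (2 * (((Fintype.card α).factorial : ℝ) *
    ((Fintype.card β).factorial : ℝ))) * ((24 ^ k : ℕ) : ℝ) ^ (opt E) :=
        Finset.sum_le_sum (fun s _ => h3 s)
    _ = ((Fintype.card (Spl E) : ℝ) * (2 * (((Fintype.card α).factorial : ℝ) *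
    ((Fintype.card β).factorial : ℝ)))) * ((24 ^ k : ℕ) : ℝ) ^ (opt E) := by
        rw [Finset.sum_const, Finset.card_univ, nsmul_eq_mul]; ring
    _ ≤ _ := by
        have : (0 : ℝ) ≤ ((24 ^ k : ℕ) : ℝ) ^ (opt E) := by positivity
        nlinarith

/-- Lower bound for any union containing the random part. -/
theorem le_union {α β γ δ : Type*} [Fintype α] [Fintype β] [Finite γ] [Finite δ]
    (E : α → β → Prop) (G : γ → δ → Prop)
    (k : ℕ) (g : Fin ((24 ^ k) ^ 2) × Fin ((24 ^ k) ^ 2) → Fin (24 ^ k))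
    (hg : GoodAll (max (Fintype.card α) (Fintype.card β)) (24 ^ k) g) :
    ((24 ^ k : ℕ) : ℝ) ^ (opt E) / 2 ^ (Fintype.card α + Fintype.card β + 1) ≤
      (homCount E (Sum.LiftRel (rel (24 ^ k) g) G) : ℝ) := by
  have h1 := (hg.any (le_max_left _ _) (le_max_right _ _) E).1
  have h2 : (homCount E (rel (24 ^ k) g) : ℝ) ≤
      (homCount E (Sum.LiftRel (rel (24 ^ k) g) G) : ℝ) := by
    exact_mod_cast homCount_le_sum E (rel (24 ^ k) g) G
  exact h1.trans h2

/-- `opt` of a star -/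
theorem opt_star (t : ℕ) : opt (fun (_ : Fin t) (_ : Fin 1) => True) = t + 2 := by
  have hval : ∀ (f : Fin t → ℕ) (g : Fin 1 → ℕ),
      val (fun (_ : Fin t) (_ : Fin 1) => True) f g = ((Set.range f).ncard : ℤ) + 2 := by
    intro f g
    unfold val
    have h1 : Set.range g = {g 0} := by
      ext z
      constructor
      · rintro ⟨x, rfl⟩
        rw [Subsingleton.elim x 0]; rfl
      · rintro rfl; exact ⟨0, rfl⟩
    have h2 : imE (fun (_ : Fin t) (_ : Fin 1) => True) f g = (fun z => (z, g 0)) '' Set.range f := by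
      ext q
      constructor
      · rintro ⟨x, y, -, hx, hy⟩
        refine ⟨f x, ⟨x, rfl⟩, Prod.ext hx ?_⟩
        rw [Subsingleton.elim y 0] at hy
        exact hy
      · rintro ⟨z, ⟨x, rfl⟩, rfl⟩
        exact ⟨x, 0, trivial, rfl, rfl⟩
    have h3 : (imE (fun (_ : Fin t) (_ : Fin 1) => True) f g).ncard = (Set.range f).ncard := by
      rw [h2, Set.ncard_image_of_injective]
      intro a b hab
      exact congrArg Prod.fst hab
    rw [h3, h1, Set.ncard_singleton]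
    push_cast
    ring
  apply le_antisymm
  · obtain ⟨f, g, hfg⟩ := exists_opt (fun (_ : Fin t) (_ : Fin 1) => True)
    rw [hfg, hval]
    have := range_ncard_le f
    rw [Nat.card_fin] at this
    have h2 : ((Set.range f).ncard : ℤ) ≤ t := by exact_mod_cast this
    linarith
  · have h1 := val_le_opt (fun (_ : Fin t) (_ : Fin 1) => True) (fun i : Fin t => (i : ℕ))
      (fun i : Fin 1 => (i : ℕ))
    rw [hval] at h1
    have h2 : (Set.range (fun i : Fin t => (i : ℕ))).ncard = t := by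
      rw [← Set.image_univ, Set.ncard_image_of_injective _ Fin.val_injective, Set.ncard_univ,
        Nat.card_fin]
    rw [h2] at h1
    exact h1

theorem stars_hom (t : ℕ) : 32 ^ t ≤ homCount (fun (_ : Fin t) (_ : Fin 1) => True) stars := by
  unfold homCount
  have h1 : Nat.card (Fin t → Bool × Fin 16) = 32 ^ t := by
    rw [Nat.card_fun]; simp
  rw [← h1]
  apply Nat.card_le_card_of_injective
    (fun (c : Fin t → Bool × Fin 16) => (⟨(fun i => (if (c i).1 then Sum.inl 0 else Sum.inr 0,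
      (c i).2), fun _ => Sum.inl 0), by
        intro x y _
        unfold stars center
        by_cases h : (c x).1 <;> simp [h]⟩ :
      {p : (Fin t → (Fin 16 ⊕ Fin 16) × Fin 16) × (Fin 1 → Fin 16 ⊕ Fin 16) //
        ∀ x y, True → stars (p.1 x) (p.2 y)}))
  intro c c' h
  have h0 := congrArg Subtype.val h
  have h1 := congrArg Prod.fst h0
  funext i
  have h2 := congrFun h1 i
  simp only [Prod.mk.injEq] at h2
  apply Prod.ext _ h2.2
  have h3 := h2.1
  rcases hb : (c i).1 with _ | _ <;> rcases hb' : (c' i).1 with _ | _ <;> simp [hb, hb'] at h3 ⊢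

theorem starsk_hom (t k : ℕ) :
    (32 ^ t) ^ k ≤ homCount (fun (_ : Fin t) (_ : Fin 1) => True) (starsk k) := by
  have h1 : homCount (fun (_ : Fin t) (_ : Fin 1) => True) (starsk k) =
      (homCount (fun (_ : Fin t) (_ : Fin 1) => True) stars) ^ k := homCount_tensor _ stars k
  rw [h1]
  exact Nat.pow_le_pow_left (stars_hom t) k

theorem homCount_K2 {γ δ : Type*} (F : γ → δ → Prop) :
    homCount (fun (_ : Fin 1) (_ : Fin 1) => True) F = Nat.card {p : γ × δ // F p.1 p.2} := by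
  unfold homCount
  apply Nat.card_congr
  exact
    { toFun := fun p => ⟨(p.1.1 0, p.1.2 0), p.2 0 0 trivial⟩
      invFun := fun q => ⟨(fun _ => q.1.1, fun _ => q.1.2), fun _ _ _ => q.2⟩
      left_inv := fun p => by
        apply Subtype.ext
        apply Prod.ext
        · funext z; rw [Subsingleton.elim z 0]
        · funext z; rw [Subsingleton.elim z 0]
      right_inv := fun q => rfl }

theorem card_liftRel_le {γ δ γ' δ' : Type*} [Finite γ] [Finite δ] [Finite γ'] [Finite δ']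
    (F : γ → δ → Prop) (G : γ' → δ' → Prop) :
    Nat.card {p : (γ ⊕ γ') × (δ ⊕ δ') // Sum.LiftRel F G p.1 p.2} ≤
      Nat.card {p : γ × δ // F p.1 p.2} + Nat.card {p : γ' × δ' // G p.1 p.2} := by
  rw [← Nat.card_sum]
  apply Nat.card_le_card_of_surjective (fun (z : {p : γ × δ // F p.1 p.2} ⊕
    {p : γ' × δ' // G p.1 p.2}) => (match z with
      | Sum.inl q => ⟨(Sum.inl q.1.1, Sum.inl q.1.2), Sum.LiftRel.inl q.2⟩
      | Sum.inr q => ⟨(Sum.inr q.1.1, Sum.inr q.1.2), Sum.LiftRel.inr q.2⟩ :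
      {p : (γ ⊕ γ') × (δ ⊕ δ') // Sum.LiftRel F G p.1 p.2}))
  rintro ⟨⟨x, y⟩, h⟩
  cases h with
  | inl h => exact ⟨Sum.inl ⟨(_, _), h⟩, rfl⟩
  | inr h => exact ⟨Sum.inr ⟨(_, _), h⟩, rfl⟩

theorem card_starsk_le (k : ℕ) :
    Nat.card {p : TA' k × TD k // starsk k p.1 p.2} ≤ 512 ^ k := by
  rw [← card_TA', ← Nat.card_eq_fintype_card]
  apply Nat.card_le_card_of_injective (fun p : {p : TA' k × TD k // starsk k p.1 p.2} => p.1.1)
  intro p q h
  apply Subtype.ext
  apply Prod.ext h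
  have h' : p.1.1 = q.1.1 := h
  funext i
  have h1 := p.2 i
  have h2 := q.2 i
  unfold stars at h1 h2
  rw [← h1, ← h2, h']

/-- The number of edges of the union of the random part and the harmful part. -/
theorem edges_stars_le (k : ℕ) (g : Fin ((24 ^ k) ^ 2) × Fin ((24 ^ k) ^ 2) → Fin (24 ^ k))
    (hg : GoodAll 1 (24 ^ k) g) :
    (homCount (fun (_ : Fin 1) (_ : Fin 1) => True)
      (Sum.LiftRel (rel (24 ^ k) g) (starsk k)) : ℝ) ≤ 3 * ((24 ^ k : ℕ) : ℝ) ^ (3 : ℤ) := by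
  have h1 := card_liftRel_le (rel (24 ^ k) g) (starsk k)
  rw [← homCount_K2, ← homCount_K2] at h1
  have h2 := card_starsk_le k
  have h3 := (hg.any (by simp) (by simp) (fun (_ : Fin 1) (_ : Fin 1) => True)).2
  rw [opt_star 1, show (((1 : ℕ) : ℤ) + 2) = 3 from rfl] at h3
  simp only [Fintype.card_fin, Nat.factorial_one, Nat.cast_one, mul_one] at h3
  have h4 : (homCount (fun (_ : Fin 1) (_ : Fin 1) => True)
      (Sum.LiftRel (rel (24 ^ k) g) (starsk k)) : ℝ) ≤
      (homCount (fun (_ : Fin 1) (_ : Fin 1) => True) (rel (24 ^ k) g) : ℝ) + (512 : ℝ) ^ k := by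
    have h5 := h1.trans (Nat.add_le_add_left h2 _)
    exact_mod_cast h5
  have h6 : (512 : ℝ) ^ k ≤ ((24 ^ k : ℕ) : ℝ) ^ (3 : ℤ) := by
    push_cast
    have : ((24 : ℝ) ^ k) ^ (3 : ℤ) = ((24 : ℝ) ^ 3) ^ k := by
      rw [show (3 : ℤ) = ((3 : ℕ) : ℤ) from rfl, zpow_natCast, ← pow_mul, ← pow_mul, mul_comm]
    rw [this]
    gcongr
    norm_num
  calc _ ≤ _ := h4
    _ ≤ 2 * ((24 ^ k : ℕ) : ℝ) ^ (3 : ℤ) + ((24 ^ k : ℕ) : ℝ) ^ (3 : ℤ) := by
      exact add_le_add h3 h6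
    _ = _ := by ring

end Pool.Agent.H140.LL
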